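import Mathlib

/-!
# Definitions for the quasi triangle inequality of the Lempert function

The space `ℂⁿ` is `Fin n → ℂ`, and the open unit disc is `Metric.ball (0 : ℂ) 1`.
-/

namespace Pool.Agent.Work.MP_68919f_an

open scoped ContDiff

/-- The Lempert function of `D ⊆ ℂⁿ`: the infimum of the numbers `|α|`, where `α` is a point of the
open unit disc for which there is a holomorphic map `φ` of the open unit disc to `D` with
`φ 0 = z` and `φ α = w`. -/
noncomputable def lempert {n : ℕ} (D : Set (Fin n → ℂ)) (z w : Fin n → ℂ) : ℝ :=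
  sInf {r : ℝ | ∃ (φ : ℂ → Fin n → ℂ) (α : ℂ),
    DifferentiableOn ℂ φ (Metric.ball 0 1) ∧ Set.MapsTo φ (Metric.ball 0 1) D ∧
    α ∈ Metric.ball (0 : ℂ) 1 ∧ φ 0 = z ∧ φ α = w ∧ r = ‖α‖}

/-- `D` satisfies a quasi triangle inequality for the Lempert function. -/
def SatisfiesQTI {n : ℕ} (D : Set (Fin n → ℂ)) : Prop :=
  ∃ C : ℝ, 1 ≤ C ∧ ∀ x ∈ D, ∀ y ∈ D, ∀ z ∈ D,
    lempert D x z ≤ C * (lempert D x y + lempert D y z)

/-- `D` is pseudoconvex: there is a continuous plurisubharmonic exhaustion function `u` of `D`. The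
function `u` is plurisubharmonic as it is continuous and satisfies the sub-mean value property: its
value at the centre of any closed complex disc `{a + ζ b : |ζ| ≤ 1} ⊆ D` is at most its mean on the
boundary circle of the disc. It is an exhaustion function as its sublevel sets are compact. -/
def IsPseudoconvex {n : ℕ} (D : Set (Fin n → ℂ)) : Prop :=
  ∃ u : (Fin n → ℂ) → ℝ, ContinuousOn u D ∧
    (∀ a b : Fin n → ℂ, (∀ ζ : ℂ, ‖ζ‖ ≤ 1 → a + ζ • b ∈ D) →
      u a ≤ Real.circleAverage (fun ζ : ℂ => u (a + ζ • b)) 0 1) ∧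
    ∀ c : ℝ, IsCompact {x ∈ D | u x ≤ c}

/-- `D` has a boundary of class `C^r`: every point `p` of the boundary of `D` has an open
neighbourhood `U` and a function `ρ` of class `C^r` on `U` with `D ∩ U = {ρ < 0}` and `dρ ≠ 0` on
the part of the boundary of `D` in `U`. -/
def HasBoundaryOfClass {n : ℕ} (r : WithTop ℕ∞) (D : Set (Fin n → ℂ)) : Prop :=
  ∀ p ∈ frontier D, ∃ (U : Set (Fin n → ℂ)) (ρ : (Fin n → ℂ) → ℝ), IsOpen U ∧ p ∈ U ∧
    ContDiffOn ℝ r ρ U ∧ D ∩ U = {x ∈ U | ρ x < 0} ∧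
    ∀ x ∈ frontier D ∩ U, fderiv ℝ ρ x ≠ 0

end Pool.Agent.Work.MP_68919f_an
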