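import Mathlib
import Pool.Agent.Work.MP_68919f_an.Defs

/-!
# The convex function `t exp (- 1 / t)` and the sub-mean value property
-/

namespace Pool.Agent.Work.MP_68919f_an

open Real Metric
open scoped ContDiff

/-- `t exp (-1 / t)` for `t > 0`, and `0` for `t ≤ 0` -/
noncomputable def lam (t : ℝ) : ℝ := t * expNegInvGlue t

lemma lam_of_nonpos {t : ℝ} (h : t ≤ 0) : lam t = 0 := by
  simp [lam, expNegInvGlue.zero_of_nonpos h]

lemma lam_of_pos {t : ℝ} (h : 0 < t) : lam t = t * exp (-t⁻¹) := by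
  simp [lam, expNegInvGlue, not_le.2 h]

lemma lam_nonneg (t : ℝ) : 0 ≤ lam t := by
  rcases le_or_gt t 0 with h | h
  · rw [lam_of_nonpos h]
  · rw [lam_of_pos h]; positivity

lemma lam_pos {t : ℝ} (h : 0 < t) : 0 < lam t := by
  rw [lam_of_pos h]; positivity

lemma lam_contDiff : ContDiff ℝ ∞ lam := by
  unfold lam
  exact contDiff_id.mul expNegInvGlue.contDiff

lemma lam_le {t : ℝ} : lam t ≤ max t 0 := by
  rcases le_or_gt t 0 with h | h
  · rw [lam_of_nonpos h]; simp
  · rw [lam_of_pos h]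
    have : exp (-t⁻¹) ≤ 1 := by
      rw [exp_le_one_iff]
      have : 0 < t⁻¹ := by positivity
      linarith
    have : t * exp (-t⁻¹) ≤ t * 1 := by gcongr
    simp only [mul_one] at this
    exact this.trans (le_max_left _ _)

lemma le_lam (t : ℝ) : t - 1 ≤ lam t := by
  rcases le_or_gt t 0 with h | h
  · rw [lam_of_nonpos h]; linarith
  · rw [lam_of_pos h]
    have h1 : 1 - t⁻¹ ≤ exp (-t⁻¹) := by
      have := add_one_le_exp (-t⁻¹)
      linarith
    have h2 : t * (1 - t⁻¹) ≤ t * exp (-t⁻¹) := by gcongr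
    have h3 : t * (1 - t⁻¹) = t - 1 := by field_simp
    linarith

/-- the slope of the tangent line -/
noncomputable def slp (t : ℝ) : ℝ := if t ≤ 0 then 0 else (1 + t⁻¹) * exp (-t⁻¹)

lemma slp_nonneg (t : ℝ) : 0 ≤ slp t := by
  unfold slp
  split_ifs with h
  · exact le_rfl
  · push Not at h; positivity

lemma slp_pos {t : ℝ} (h : 0 < t) : 0 < slp t := by
  unfold slp
  rw [if_neg (not_le.2 h)]
  positivity

/-- `lam` is above its tangent lines -/
lemma tangent (s t : ℝ) : lam s + slp s * (t - s) ≤ lam t := by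
  unfold slp
  split_ifs with h
  · rw [lam_of_nonpos h]
    simpa using lam_nonneg t
  · push Not at h
    rw [lam_of_pos h]
    have e : s * exp (-s⁻¹) + (1 + s⁻¹) * exp (-s⁻¹) * (t - s) =
        exp (-s⁻¹) * (t + t * s⁻¹ - 1) := by
      field_simp
      ring
    rw [e]
    rcases le_or_gt t 0 with ht | ht
    · rw [lam_of_nonpos ht]
      have h1 : t * s⁻¹ ≤ 0 := mul_nonpos_of_nonpos_of_nonneg ht (by positivity)
      have h2 : t + t * s⁻¹ - 1 ≤ 0 := by linarith
      exact mul_nonpos_of_nonneg_of_nonpos (by positivity) h2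
    · rw [lam_of_pos ht]
      have h1 : 1 + (s⁻¹ - t⁻¹) ≤ exp (s⁻¹ - t⁻¹) := by
        have := add_one_le_exp (s⁻¹ - t⁻¹)
        linarith
      have h2 : t + t * s⁻¹ - 1 = t * (1 + (s⁻¹ - t⁻¹)) := by field_simp; ring
      have h3 : exp (-t⁻¹) = exp (-s⁻¹) * exp (s⁻¹ - t⁻¹) := by
        rw [← exp_add]; congr 1; ring
      rw [h2, h3]
      have : exp (-s⁻¹) * (t * (1 + (s⁻¹ - t⁻¹))) ≤ exp (-s⁻¹) * (t * exp (s⁻¹ - t⁻¹)) := by
        gcongr
      linarith

lemma lam_mono : Monotone lam := by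
  intro s t hst
  have := tangent s t
  have h2 : 0 ≤ slp s * (t - s) := mul_nonneg (slp_nonneg s) (by linarith)
  linarith

/-- Jensen's inequality for the logarithm of the modulus of a holomorphic function -/
lemma log_norm_le_circleAverage {F : ℂ → ℂ} {R : ℝ} (hR : 0 < R)
    (hF : AnalyticOnNhd ℂ F (closedBall 0 R)) (h0 : F 0 ≠ 0) :
    log ‖F 0‖ ≤ circleAverage (fun ζ => log ‖F ζ‖) 0 R := by
  have hR' : |R| = R := abs_of_pos hR
  have h1 := AnalyticOnNhd.circleAverage_log_norm (c := 0) (R := R) (f := F) hR.ne'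
    (by rw [hR']; exact hF) h0
  rw [h1]
  have h2 : 0 ≤ ∑ᶠ u, (MeromorphicOn.divisor F (closedBall 0 |R|) u : ℝ) *
      Real.log (R * ‖0 - u‖⁻¹) := by
    apply finsum_nonneg
    intro u
    by_cases hu : u ∈ closedBall (0 : ℂ) |R|
    · have h3 : 0 ≤ MeromorphicOn.divisor F (closedBall 0 |R|) u := by
        have := (MeromorphicOn.AnalyticOnNhd.divisor_nonneg (f := F)
          (U := closedBall 0 |R|) (by rw [hR']; exact hF))
        exact this u
      have h3' : (0 : ℝ) ≤ (MeromorphicOn.divisor F (closedBall 0 |R|) u : ℝ) := by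
        exact_mod_cast h3
      refine mul_nonneg h3' ?_
      by_cases hu0 : u = 0
      · simp [hu0]
      · apply Real.log_nonneg
        have hn : 0 < ‖u‖ := norm_pos_iff.2 hu0
        rw [zero_sub, norm_neg, ← div_eq_mul_inv, le_div_iff₀ hn, one_mul]
        rw [hR', mem_closedBall_zero_iff] at hu
        exact hu
    · have : MeromorphicOn.divisor F (closedBall 0 |R|) u = 0 :=
        Function.locallyFinsuppWithin.apply_eq_zero_of_notMem _ hu
      simp [this]
  linarith

lemma circleIntegrable_log {F : ℂ → ℂ} {R : ℝ} (hR : 0 < R)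
    (hF : AnalyticOnNhd ℂ F (closedBall 0 R)) :
    CircleIntegrable (fun ζ => log ‖F ζ‖) 0 R := by
  apply MeromorphicOn.circleIntegrable_log_norm
  rw [abs_of_pos hR]
  exact (hF.mono sphere_subset_closedBall).meromorphicOn

end Pool.Agent.Work.MP_68919f_an
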