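import Mathlib
import Pool.Agent.Work.MP_68919f_an.Lam

/-!
# The radial subharmonic functions `U ε`
-/

namespace Pool.Agent.Work.MP_68919f_an

open Real Metric
open scoped ContDiff Topology

/-- the smooth radial subharmonic function with a logarithmic growth which vanishes on the disc of
radius `ε` -/
noncomputable def U (ε : ℝ) (z : ℂ) : ℝ := lam (2 * log (‖z‖ / ε))

lemma U_nonneg (ε : ℝ) (z : ℂ) : 0 ≤ U ε z := lam_nonneg _

lemma U_zero {ε : ℝ} (hε : 0 < ε) {z : ℂ} (hz : ‖z‖ ≤ ε) : U ε z = 0 := by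
  apply lam_of_nonpos
  have : log (‖z‖ / ε) ≤ 0 := Real.log_nonpos (by positivity) ((div_le_one hε).2 hz)
  linarith

lemma U_mono {ε : ℝ} (hε : 0 < ε) {z w : ℂ} (h : ‖z‖ ≤ ‖w‖) : U ε z ≤ U ε w := by
  rcases eq_or_ne z 0 with rfl | hz
  · rw [U_zero hε (by simpa using hε.le)]
    exact U_nonneg _ _
  · apply lam_mono
    have : 0 < ‖z‖ := norm_pos_iff.2 hz
    gcongr

lemma U_le {ε r : ℝ} (hε : 0 < ε) (hr : ε ≤ r) {z : ℂ} (h : ‖z‖ ≤ r) :
    U ε z ≤ 2 * log (r / ε) := by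
  have hr0 : 0 < r := hε.trans_le hr
  have h1 : U ε z ≤ U ε (r : ℂ) := by
    apply U_mono hε
    rwa [Complex.norm_of_nonneg hr0.le]
  refine h1.trans ?_
  unfold U
  rw [Complex.norm_of_nonneg hr0.le]
  refine lam_le.trans ?_
  apply max_le le_rfl
  have : 0 ≤ log (r / ε) := Real.log_nonneg ((one_le_div hε).2 hr)
  linarith

lemma le_U (ε : ℝ) (z : ℂ) : 2 * log (‖z‖ / ε) - 1 ≤ U ε z := le_lam _

lemma U_contDiff {ε : ℝ} (hε : 0 < ε) : ContDiff ℝ ∞ (U ε) := by
  rw [contDiff_iff_contDiffAt]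
  intro z
  rcases eq_or_ne z 0 with rfl | hz
  · have : U ε =ᶠ[𝓝 0] fun _ => 0 := by
      filter_upwards [Metric.ball_mem_nhds (0 : ℂ) hε] with w hw
      apply U_zero hε
      rw [mem_ball_zero_iff] at hw
      exact hw.le
    exact contDiffAt_const.congr_of_eventuallyEq this
  · have h1 : ContDiffAt ℝ ∞ (fun z : ℂ => ‖z‖) z := contDiffAt_norm ℝ hz
    have h2 : ContDiffAt ℝ ∞ (fun z : ℂ => ‖z‖ / ε) z := h1.div_const ε
    have h3 : ContDiffAt ℝ ∞ (fun z : ℂ => log (‖z‖ / ε)) z := by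
      apply h2.log
      have : 0 < ‖z‖ := norm_pos_iff.2 hz
      positivity
    have h4 : ContDiffAt ℝ ∞ (fun z : ℂ => 2 * log (‖z‖ / ε)) z := contDiffAt_const.mul h3
    exact lam_contDiff.contDiffAt.comp z h4

lemma U_continuous {ε : ℝ} (hε : 0 < ε) : Continuous (U ε) := (U_contDiff hε).continuous

lemma U_growth {ε : ℝ} (hε : 0 < ε) {z : ℂ} (hz : z ≠ 0) (s : ℝ) :
    U ε z + slp (2 * log (‖z‖ / ε)) * (2 * s) ≤ U ε ((exp s : ℝ) • z) := by
  have h := tangent (2 * log (‖z‖ / ε)) (2 * log (‖(exp s : ℝ) • z‖ / ε))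
  have h2 : log (‖(exp s : ℝ) • z‖ / ε) = s + log (‖z‖ / ε) := by
    have : 0 < ‖z‖ := norm_pos_iff.2 hz
    rw [norm_smul, Real.norm_eq_abs, abs_of_pos (exp_pos s), mul_div_assoc,
      Real.log_mul (exp_pos s).ne' (by positivity), Real.log_exp]
  have h3 : 2 * log (‖(exp s : ℝ) • z‖ / ε) - 2 * log (‖z‖ / ε) = 2 * s := by
    rw [h2]; ring
  rw [h3] at h
  exact h

lemma circleIntegrable_of_continuousOn {f : ℂ → ℝ} {R : ℝ} (hR : 0 < R)
    (hf : ContinuousOn f (closedBall 0 R)) : CircleIntegrable f 0 R := by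
  apply ContinuousOn.circleIntegrable hR.le
  exact hf.mono sphere_subset_closedBall

/-- the sub-mean value property of `U ε ∘ F` -/
lemma U_submean {ε : ℝ} (hε : 0 < ε) {F : ℂ → ℂ} {R : ℝ} (hR : 0 < R)
    (hF : AnalyticOnNhd ℂ F (closedBall 0 R)) :
    U ε (F 0) ≤ circleAverage (fun ζ => U ε (F ζ)) 0 R := by
  rcases eq_or_ne (F 0) 0 with h0 | h0
  · rw [h0, U_zero hε (by simpa using hε.le)]
    exact circleAverage_nonneg_of_nonneg fun x _ => U_nonneg _ _
  · set G : ℂ → ℂ := fun ζ => F ζ / ε with hG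
    have hGa : AnalyticOnNhd ℂ G (closedBall 0 R) := by
      intro x hx
      exact (hF x hx).div analyticAt_const (by exact_mod_cast hε.ne')
    have hG0 : G 0 ≠ 0 := div_ne_zero h0 (by exact_mod_cast hε.ne')
    have hn : ∀ ζ, ‖G ζ‖ = ‖F ζ‖ / ε := by
      intro ζ
      rw [hG]
      simp only [norm_div, Complex.norm_real, Real.norm_eq_abs, abs_of_pos hε]
    have hU : ∀ ζ, U ε (F ζ) = lam (2 * log ‖G ζ‖) := by
      intro ζ; rw [hn]; rfl
    set t0 : ℝ := 2 * log ‖G 0‖ with ht0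
    have hI := circleIntegrable_log hR hGa
    have hI2 : CircleIntegrable (fun ζ => (lam t0 - slp t0 * t0) + (slp t0 * 2) * log ‖G ζ‖) 0 R := by
      have h1 : CircleIntegrable (fun ζ => (slp t0 * 2) • log ‖G ζ‖) 0 R := hI.const_smul
      exact (circleIntegrable_const _ _ _).add h1
    have hI3 : CircleIntegrable (fun ζ => U ε (F ζ)) 0 R := by
      apply circleIntegrable_of_continuousOn hR
      exact (U_continuous hε).comp_continuousOn hF.continuousOn
    have hmono := circleAverage_mono hI2 hI3 (by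
      intro ζ _
      rw [hU]
      have := tangent t0 (2 * log ‖G ζ‖)
      nlinarith [this])
    have e1 : circleAverage (fun ζ => (lam t0 - slp t0 * t0) + (slp t0 * 2) * log ‖G ζ‖) 0 R =
        (lam t0 - slp t0 * t0) + (slp t0 * 2) * circleAverage (fun ζ => log ‖G ζ‖) 0 R := by
      have h1 : CircleIntegrable (fun ζ => (slp t0 * 2) • log ‖G ζ‖) 0 R := hI.const_smul
      have h2 := circleAverage_fun_add (circleIntegrable_const (lam t0 - slp t0 * t0) 0 R) h1
      have h3 := circleAverage_fun_smul (a := slp t0 * 2) (f := fun ζ => log ‖G ζ‖) (c := 0) (R := R)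
      simp only [smul_eq_mul] at h2 h3
      rw [h2, h3, circleAverage_const]
    rw [e1] at hmono
    have hJ := log_norm_le_circleAverage hR hGa hG0
    rw [hU 0]
    refine le_trans ?_ hmono
    have h5 : slp t0 * 2 * log ‖G 0‖ ≤ slp t0 * 2 * circleAverage (fun ζ => log ‖G ζ‖) 0 R := by
      apply mul_le_mul_of_nonneg_left hJ
      have := slp_nonneg t0
      linarith
    have h6 : slp t0 * t0 = slp t0 * 2 * log ‖G 0‖ := by rw [ht0]; ring
    rw [← ht0]
    linarith

end Pool.Agent.Work.MP_68919f_an
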