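import Mathlib
import Pool.Agent.Work.MP_68919f_an.Bump

/-!
# The smooth radial function `Psi`, with infinitely many scales at the origin
-/

namespace Pool.Agent.Work.MP_68919f_an

open Real Metric
open scoped ContDiff Topology

/-- the logarithms of the scales -/
noncomputable def Q (k : ℕ) : ℝ := ((k + 1).factorial : ℝ)

lemma Q_ge (k : ℕ) : 1 ≤ Q k := by
  unfold Q
  exact_mod_cast (Nat.factorial_pos (k + 1))

lemma Q_zero : Q 0 = 1 := by simp [Q]

lemma Q_succ (k : ℕ) : Q (k + 1) = (k + 2) * Q k := by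
  unfold Q
  rw [Nat.factorial_succ (k + 1)]
  push_cast
  ring

/-- the scales -/
noncomputable def eps (k : ℕ) : ℝ := exp (-Q k)

lemma eps_pos (k : ℕ) : 0 < eps k := exp_pos _

lemma eps_succ_le (k : ℕ) : eps (k + 1) ≤ eps k := by
  unfold eps
  apply exp_le_exp.2
  rw [Q_succ]
  have h := Q_ge k
  have h2 : (0 : ℝ) ≤ k := Nat.cast_nonneg k
  nlinarith

lemma eps_anti : Antitone eps := antitone_nat_of_succ_le eps_succ_le

lemma eps_le_one (k : ℕ) : eps k ≤ 1 := by
  unfold eps
  rw [exp_le_one_iff]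
  linarith [Q_ge k]

/-- a smooth cutoff function, equal to `1` on the closed unit disc -/
noncomputable def chi : ContDiffBump (0 : ℂ) := ⟨1, 2, by norm_num, by norm_num⟩

/-- the building blocks, cut off -/
noncomputable def W (k : ℕ) (z : ℂ) : ℝ := chi z * U (eps k) z

lemma W_eq {k : ℕ} {z : ℂ} (hz : ‖z‖ ≤ 1) : W k z = U (eps k) z := by
  unfold W
  rw [chi.one_of_mem_closedBall (by simpa [chi] using hz), one_mul]

lemma W_nonneg (k : ℕ) (z : ℂ) : 0 ≤ W k z := mul_nonneg chi.nonneg (U_nonneg _ _)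

lemma W_contDiff (k : ℕ) : ContDiff ℝ ∞ (W k) := by
  unfold W
  exact chi.contDiff.mul (U_contDiff (eps_pos k))

lemma W_le (k : ℕ) (z : ℂ) : W k z ≤ 4 * Q k := by
  have hQ := Q_ge k
  by_cases hz : ‖z‖ ≤ 2
  · have h1 : U (eps k) z ≤ 2 * log (2 / eps k) :=
      U_le (eps_pos k) ((eps_le_one k).trans (by norm_num)) hz
    have h2 : log (2 / eps k) = log 2 + Q k := by
      rw [Real.log_div (by norm_num) (eps_pos k).ne', eps, Real.log_exp]
      ring
    have h3 : log 2 ≤ 1 := by
      have := Real.log_two_lt_d9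
      linarith
    have h4 : W k z ≤ 1 * U (eps k) z := by
      unfold W
      exact mul_le_mul_of_nonneg_right chi.le_one (U_nonneg _ _)
    rw [h2] at h1
    linarith
  · push Not at hz
    have : chi z = 0 := by
      apply chi.zero_of_le_dist
      rw [dist_zero_right]
      exact hz.le
    unfold W
    rw [this, zero_mul]
    linarith

lemma W_bdd (k : ℕ) : ∃ M : ℝ, 0 < M ∧ ∀ l ≤ k, ∀ z, ‖iteratedFDeriv ℝ l (W k) z‖ ≤ M := by
  have hc : HasCompactSupport (W k) := by
    unfold W
    exact chi.hasCompactSupport.mul_right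
  have h : ∀ l : ℕ, ∃ M : ℝ, ∀ z, ‖iteratedFDeriv ℝ l (W k) z‖ ≤ M := by
    intro l
    have hcont : Continuous (iteratedFDeriv ℝ l (W k)) :=
      (W_contDiff k).continuous_iteratedFDeriv (by exact_mod_cast le_top)
    exact (hc.iteratedFDeriv l).exists_bound_of_continuous hcont
  choose M hM using h
  refine ⟨1 + ∑ l ∈ Finset.range (k + 1), |M l|, by positivity, ?_⟩
  intro l hl z
  have h1 : |M l| ≤ ∑ l ∈ Finset.range (k + 1), |M l| :=
    Finset.single_le_sum (f := fun l => |M l|) (fun _ _ => abs_nonneg _)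
      (Finset.mem_range.2 (by omega))
  have h2 := hM l z
  have h3 := le_abs_self (M l)
  linarith

/-- the coefficients -/
structure Coef where
  /-- the coefficients -/
  a : ℕ → ℝ
  zero : a 0 = 1
  pos : ∀ k, 0 < a k
  small : ∀ k, a (k + 1) * (16 * Q (k + 1)) ≤ a k
  small2 : ∀ k, a (k + 1) * (2 * Q (k + 1) ^ 2) ≤ 1
  smooth : ∀ k l, l ≤ k + 1 → ∀ z,
    ‖iteratedFDeriv ℝ l (fun z => a (k + 1) * W (k + 1) z) z‖ ≤ (1 / 2) ^ (k + 1)

lemma exists_seq (b : ℕ → ℝ) (hb : ∀ k, 0 < b k) :
    ∃ a : ℕ → ℝ, a 0 = 1 ∧ (∀ k, 0 < a k) ∧ ∀ k, a (k + 1) ≤ a k * b k ∧ a (k + 1) ≤ b k := by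
  refine ⟨fun k => ∏ j ∈ Finset.range k, min 1 (b j), by simp, ?_, ?_⟩
  · intro k
    apply Finset.prod_pos
    intro j _
    exact lt_min one_pos (hb j)
  · intro k
    have hpos : 0 < ∏ j ∈ Finset.range k, min 1 (b j) :=
      Finset.prod_pos fun j _ => lt_min one_pos (hb j)
    have hle : ∏ j ∈ Finset.range k, min 1 (b j) ≤ 1 :=
      Finset.prod_le_one (fun j _ => (lt_min one_pos (hb j)).le) (fun j _ => min_le_left _ _)
    simp only [Finset.prod_range_succ]
    have h1 : min 1 (b k) ≤ b k := min_le_right _ _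
    have h0 := hb k
    constructor
    · gcongr
    · calc (∏ j ∈ Finset.range k, min 1 (b j)) * min 1 (b k) ≤ 1 * b k := by
            gcongr
        _ = b k := one_mul _

lemma exists_coef : Nonempty Coef := by
  choose M hM0 hM using W_bdd
  obtain ⟨a, h0, hpos, ha⟩ := exists_seq
    (fun k => min (1 / (16 * Q (k + 1))) (min (1 / (2 * Q (k + 1) ^ 2))
      ((1 / 2) ^ (k + 1) / M (k + 1)))) (by
      intro k
      have h1 := Q_ge (k + 1)
      have h2 := hM0 (k + 1)
      refine lt_min (by positivity) (lt_min (by positivity) (by positivity)))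
  refine ⟨⟨a, h0, hpos, ?_, ?_, ?_⟩⟩
  · intro k
    have h1 : a (k + 1) ≤ a k * (1 / (16 * Q (k + 1))) :=
      (ha k).1.trans (mul_le_mul_of_nonneg_left (min_le_left _ _) (hpos k).le)
    have hQ := Q_ge (k + 1)
    have h2 : a (k + 1) * (16 * Q (k + 1)) ≤ a k * (1 / (16 * Q (k + 1))) * (16 * Q (k + 1)) := by
      gcongr
    have h3 : a k * (1 / (16 * Q (k + 1))) * (16 * Q (k + 1)) = a k := by field_simp
    linarith
  · intro k
    have h1 : a (k + 1) ≤ 1 / (2 * Q (k + 1) ^ 2) :=
      (ha k).2.trans ((min_le_right _ _).trans (min_le_left _ _))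
    have hQ := Q_ge (k + 1)
    rw [le_div_iff₀ (by positivity)] at h1
    exact h1
  · intro k l hl z
    have h1 : a (k + 1) ≤ (1 / 2) ^ (k + 1) / M (k + 1) :=
      (ha k).2.trans ((min_le_right _ _).trans (min_le_right _ _))
    rw [le_div_iff₀ (hM0 _)] at h1
    have h2 : iteratedFDeriv ℝ l (fun z => a (k + 1) * W (k + 1) z) z =
        a (k + 1) • iteratedFDeriv ℝ l (W (k + 1)) z := by
      have h3 : (fun z => a (k + 1) * W (k + 1) z) = a (k + 1) • W (k + 1) := by
        ext z; simp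
      rw [h3]
      apply iteratedFDeriv_const_smul_apply
      exact ((W_contDiff (k + 1)).of_le (by exact_mod_cast le_top)).contDiffAt
    rw [h2, norm_smul, Real.norm_eq_abs, abs_of_pos (hpos _)]
    refine le_trans ?_ h1
    have := hM (k + 1) l hl z
    have h4 := hpos (k + 1)
    gcongr

namespace Coef

variable (c : Coef)

lemma a_le (k : ℕ) : c.a k ≤ (1 / 16) ^ k := by
  induction k with
  | zero => simp [c.zero]
  | succ k ih =>
    have h1 := c.small k
    have h2 := Q_ge (k + 1)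
    have h3 := c.pos (k + 1)
    rw [pow_succ]
    nlinarith

lemma a_add_le (k i : ℕ) : c.a (k + i) ≤ c.a k * (1 / 16) ^ i := by
  induction i with
  | zero => simp
  | succ i ih =>
    have h1 := c.small (k + i)
    have h2 := Q_ge (k + i + 1)
    have h3 := c.pos (k + i + 1)
    rw [pow_succ]
    have h4 : k + (i + 1) = k + i + 1 := by ring
    rw [h4]
    nlinarith

lemma aQ_le (k : ℕ) : c.a k * Q k ≤ (1 / 16) ^ k := by
  rcases k with _ | k
  · simp [c.zero, Q_zero]
  · have h1 := c.small k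
    have h2 := c.a_le k
    rw [pow_succ]
    linarith

lemma term_nonneg (k : ℕ) (z : ℂ) : 0 ≤ c.a k * W k z :=
  mul_nonneg (c.pos k).le (W_nonneg k z)

lemma term_le (k : ℕ) (z : ℂ) : c.a k * W k z ≤ 4 * (1 / 16) ^ k := by
  have h1 := W_le k z
  have h2 := c.aQ_le k
  have h3 : c.a k * W k z ≤ c.a k * (4 * Q k) := mul_le_mul_of_nonneg_left h1 (c.pos k).le
  linarith

lemma summable (z : ℂ) : Summable fun k => c.a k * W k z := by
  refine Summable.of_nonneg_of_le (fun k => c.term_nonneg k z) (fun k => c.term_le k z) ?_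
  exact (summable_geometric_of_lt_one (by norm_num) (by norm_num)).mul_left 4

/-- the smooth radial function with infinitely many scales at the origin -/
noncomputable def Psi (z : ℂ) : ℝ := ∑' k, c.a k * W k z

lemma Psi_nonneg (z : ℂ) : 0 ≤ c.Psi z := tsum_nonneg fun k => c.term_nonneg k z

lemma Psi_contDiff : ContDiff ℝ ∞ c.Psi := by
  unfold Psi
  apply contDiff_tsum_of_eventually (v := fun _ k => (1 / 2 : ℝ) ^ k)
  · intro k
    exact contDiff_const.mul (W_contDiff k)
  · intro l _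
    exact summable_geometric_of_lt_one (by norm_num) (by norm_num)
  · intro l _
    rw [Nat.cofinite_eq_atTop]
    filter_upwards [Filter.eventually_ge_atTop (l + 1)] with k hk z
    obtain ⟨j, rfl⟩ : ∃ j, k = j + 1 := ⟨k - 1, by omega⟩
    exact c.smooth j l (by omega) z

lemma Psi_continuous : Continuous c.Psi := c.Psi_contDiff.continuous

lemma le_Psi (k : ℕ) {z : ℂ} (hz : ‖z‖ ≤ 1) : c.a k * U (eps k) z ≤ c.Psi z := by
  rw [← W_eq hz]
  exact (c.summable z).le_tsum k (fun j _ => c.term_nonneg j z)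

lemma Psi_zero : c.Psi 0 = 0 := by
  unfold Psi
  have : ∀ k, c.a k * W k 0 = 0 := by
    intro k
    rw [W_eq (by simp), U_zero (eps_pos k) (by simpa using (eps_pos k).le), mul_zero]
  simp [this]

lemma Psi_mono {z w : ℂ} (h : ‖z‖ ≤ ‖w‖) (hw : ‖w‖ ≤ 1) : c.Psi z ≤ c.Psi w := by
  apply (c.summable z).tsum_le_tsum _ (c.summable w)
  intro k
  rw [W_eq hw, W_eq (h.trans hw)]
  exact mul_le_mul_of_nonneg_left (U_mono (eps_pos k) h) (c.pos k).le

lemma one_lt_Psi {z : ℂ} (hz : ‖z‖ = 1) : 1 < c.Psi z := by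
  have h1 := c.le_Psi 0 hz.le
  rw [c.zero, one_mul] at h1
  refine lt_of_lt_of_le ?_ h1
  unfold U
  have h2 : 2 * log (‖z‖ / eps 0) = 2 := by
    rw [hz, eps, Q_zero, one_div, Real.log_inv, Real.log_exp]
    norm_num
  rw [h2, lam_of_pos (by norm_num)]
  have h3 : exp (-2⁻¹) > 1 / 2 := by
    have := add_one_lt_exp (x := (-2⁻¹ : ℝ)) (by norm_num)
    norm_num at this ⊢
    linarith
  linarith

lemma Psi_growth {z : ℂ} (hz : ‖z‖ < 1) (h0 : 0 < c.Psi z) :
    ∃ m : ℝ, 0 < m ∧ ∀ s : ℝ, 0 ≤ s → ‖(exp s : ℝ) • z‖ ≤ 1 →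
      c.Psi z + m * s ≤ c.Psi ((exp s : ℝ) • z) := by
  have hz0 : z ≠ 0 := by
    rintro rfl
    rw [c.Psi_zero] at h0
    exact lt_irrefl _ h0
  obtain ⟨k, hk⟩ : ∃ k, 0 < U (eps k) z := by
    by_contra hcon
    push Not at hcon
    have : c.Psi z ≤ 0 := by
      unfold Psi
      apply tsum_nonpos
      intro k
      rw [W_eq hz.le]
      exact mul_nonpos_of_nonneg_of_nonpos (c.pos k).le (hcon k)
    linarith
  have ht : 0 < 2 * log (‖z‖ / eps k) := by
    by_contra hcon
    push Not at hcon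
    unfold U at hk
    rw [lam_of_nonpos hcon] at hk
    exact lt_irrefl _ hk
  refine ⟨c.a k * (slp (2 * log (‖z‖ / eps k)) * 2), ?_, ?_⟩
  · have := slp_pos ht
    have := c.pos k
    positivity
  · intro s hs hs1
    set w : ℂ := (exp s : ℝ) • z with hw
    have hzw : ‖z‖ ≤ ‖w‖ := by
      rw [hw, norm_smul, Real.norm_eq_abs, abs_of_pos (exp_pos s)]
      have h1 : 1 ≤ exp s := one_le_exp hs
      nlinarith [norm_nonneg z]
    have hd : Summable fun j => c.a j * W j w - c.a j * W j z := (c.summable w).sub (c.summable z)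
    have h1 : c.Psi w - c.Psi z = ∑' j, (c.a j * W j w - c.a j * W j z) := by
      unfold Psi
      rw [(c.summable w).tsum_sub (c.summable z)]
    have h2 : c.a k * W k w - c.a k * W k z ≤ ∑' j, (c.a j * W j w - c.a j * W j z) := by
      apply hd.le_tsum k
      intro j _
      rw [W_eq hs1, W_eq hz.le, sub_nonneg]
      exact mul_le_mul_of_nonneg_left (U_mono (eps_pos j) hzw) (c.pos j).le
    have h3 := U_growth (eps_pos k) hz0 s
    rw [W_eq hs1, W_eq hz.le] at h2
    rw [← hw] at h3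
    have h4 := mul_le_mul_of_nonneg_left h3 (c.pos k).le
    linarith

lemma Psi_submean {a b : ℂ} (h : ∀ ζ : ℂ, ‖ζ‖ ≤ 1 → ‖a + ζ * b‖ ≤ 1) :
    c.Psi a ≤ circleAverage (fun ζ : ℂ => c.Psi (a + ζ * b)) 0 1 := by
  have ha : ‖a‖ ≤ 1 := by simpa using h 0 (by simp)
  have hsum : c.Psi a = ∑' k, c.a k * W k a := rfl
  rw [hsum]
  apply (c.summable a).tsum_le_of_sum_range_le
  intro N
  have hFan : AnalyticOnNhd ℂ (fun ζ : ℂ => a + ζ * b) (closedBall 0 1) := by
    intro x _
    fun_prop
  have hI : ∀ k, CircleIntegrable (fun ζ : ℂ => c.a k * U (eps k) (a + ζ * b)) 0 1 := by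
    intro k
    apply circleIntegrable_of_continuousOn one_pos
    apply Continuous.continuousOn
    exact continuous_const.mul ((U_continuous (eps_pos k)).comp (by fun_prop))
  have h1 : circleAverage (fun ζ : ℂ => ∑ k ∈ Finset.range N, c.a k * U (eps k) (a + ζ * b)) 0 1 ≤
      circleAverage (fun ζ : ℂ => c.Psi (a + ζ * b)) 0 1 := by
    apply circleAverage_mono
    · have := CircleIntegrable.sum (Finset.range N) (fun k _ => hI k)
      convert this using 1
      ext ζ
      simp
    · apply circleIntegrable_of_continuousOn one_pos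
      apply Continuous.continuousOn
      exact c.Psi_continuous.comp (by fun_prop)
    · intro ζ hζ
      have hζ1 : ‖a + ζ * b‖ ≤ 1 := by
        apply h
        rw [mem_sphere_zero_iff_norm] at hζ
        rw [hζ]; simp
      have : ∑ k ∈ Finset.range N, c.a k * U (eps k) (a + ζ * b) =
          ∑ k ∈ Finset.range N, c.a k * W k (a + ζ * b) := by
        apply Finset.sum_congr rfl
        intro k _
        rw [W_eq hζ1]
      rw [this]
      exact (c.summable _).sum_le_tsum _ (fun k _ => c.term_nonneg k _)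
  refine le_trans ?_ h1
  rw [circleAverage_fun_sum (fun k _ => hI k)]
  apply Finset.sum_le_sum
  intro k _
  rw [W_eq ha]
  have h2 := circleAverage_fun_smul (a := c.a k) (f := fun ζ : ℂ => U (eps k) (a + ζ * b))
    (c := 0) (R := 1)
  simp only [smul_eq_mul] at h2
  rw [h2]
  apply mul_le_mul_of_nonneg_left _ (c.pos k).le
  have := U_submean (eps_pos k) one_pos hFan
  simpa using this

/-- the value of `Psi` at the scale `k` -/
lemma Psi_le (k : ℕ) {z : ℂ} (hz : ‖z‖ ≤ exp (-1) * eps k) :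
    c.Psi z ≤ c.a (k + 1) * (2 * (Q (k + 1) - Q k) - 2 + 1 / 7) := by
  have hE : eps k ≤ 1 := eps_le_one k
  have hE0 := eps_pos k
  have he1 : exp (-1) ≤ 1 := by rw [exp_le_one_iff]; norm_num
  have hzk : ‖z‖ ≤ eps k := hz.trans (by nlinarith [exp_pos (-1)])
  have hz1 : ‖z‖ ≤ 1 := hzk.trans hE
  have h1 := (c.summable z).sum_add_tsum_nat_add (k + 2)
  have h2 : ∑ j ∈ Finset.range (k + 2), c.a j * W j z = c.a (k + 1) * W (k + 1) z := by
    rw [Finset.sum_range_succ]
    have : ∑ j ∈ Finset.range (k + 1), c.a j * W j z = 0 := by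
      apply Finset.sum_eq_zero
      intro j hj
      have hj' : j ≤ k := by
        have := Finset.mem_range.1 hj
        omega
      rw [W_eq hz1, U_zero (eps_pos j) (hzk.trans (eps_anti hj')), mul_zero]
    rw [this, zero_add]
  have h3 : W (k + 1) z ≤ 2 * (Q (k + 1) - Q k) - 2 := by
    rw [W_eq hz1]
    have hle : eps (k + 1) ≤ exp (-1) * eps k := by
      unfold eps
      rw [← exp_add]
      apply exp_le_exp.2
      rw [Q_succ]
      have := Q_ge k
      have h5 : (0 : ℝ) ≤ k := Nat.cast_nonneg k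
      nlinarith
    have h4 := U_le (eps_pos (k + 1)) hle hz
    have h5 : log (exp (-1) * eps k / eps (k + 1)) = -1 - Q k + Q (k + 1) := by
      unfold eps
      rw [Real.log_div (by positivity) (exp_pos _).ne', Real.log_mul (exp_pos _).ne' (exp_pos _).ne',
        Real.log_exp, Real.log_exp, Real.log_exp]
      ring
    rw [h5] at h4
    linarith
  have h4 : ∑' i, c.a (i + (k + 2)) * W (i + (k + 2)) z ≤
      ∑' i : ℕ, c.a (k + 1) / 8 * (1 / 16) ^ i := by
    apply Summable.tsum_le_tsum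
    · intro i
      have h5 : W (i + (k + 2)) z ≤ 2 * Q (i + (k + 2)) := by
        rw [W_eq hz1]
        have h6 := U_le (eps_pos (i + (k + 2))) (eps_le_one _) hz1
        have h7 : log (1 / eps (i + (k + 2))) = Q (i + (k + 2)) := by
          unfold eps
          rw [one_div, Real.log_inv, Real.log_exp]
          ring
        rw [h7] at h6
        exact h6
      have h6 := c.small (i + (k + 1))
      have h7 := c.a_add_le (k + 1) i
      have h8 : i + (k + 1) + 1 = i + (k + 2) := by ring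
      have h9 : k + 1 + i = i + (k + 1) := by ring
      rw [h8] at h6
      rw [h9] at h7
      have h10 : c.a (i + (k + 2)) * W (i + (k + 2)) z ≤
          c.a (i + (k + 2)) * (2 * Q (i + (k + 2))) :=
        mul_le_mul_of_nonneg_left h5 (c.pos _).le
      linarith
    · exact (summable_nat_add_iff (k + 2)).2 (c.summable z)
    · exact (summable_geometric_of_lt_one (by norm_num) (by norm_num)).mul_left _
  have h5 : ∑' i : ℕ, c.a (k + 1) / 8 * (1 / 16 : ℝ) ^ i ≤ c.a (k + 1) * (1 / 7) := by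
    rw [tsum_mul_left, tsum_geometric_of_lt_one (by norm_num) (by norm_num)]
    have := c.pos (k + 1)
    norm_num
    linarith
  have h6 : c.a (k + 1) * W (k + 1) z ≤ c.a (k + 1) * (2 * (Q (k + 1) - Q k) - 2) :=
    mul_le_mul_of_nonneg_left h3 (c.pos _).le
  have h7 : c.Psi z = ∑' j, c.a j * W j z := rfl
  rw [h7, ← h1, h2]
  linarith

end Coef

end Pool.Agent.Work.MP_68919f_an
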