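import Mathlib
import Pool.Agent.Work.MP_68919f_an.Psi

/-!
# The domain
-/

namespace Pool.Agent.Work.MP_68919f_an

open Real Metric
open scoped ContDiff Topology

namespace Coef

variable (c : Coef) (m : ℕ)

/-- the function whose sublevel set is the domain -/
noncomputable def R (v : Fin (m + 2) → ℂ) : ℝ :=
  (∑ j : Fin (m + 1), ‖v j.succ‖ ^ 2) + c.Psi (v 0)

/-- the domain -/
def Dom : Set (Fin (m + 2) → ℂ) := {v | ‖v 0‖ < 1 ∧ c.R m v < 1}

lemma R_contDiff : ContDiff ℝ ∞ (c.R m) := by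
  unfold R
  apply ContDiff.add
  · apply ContDiff.sum
    intro j _
    exact (contDiff_apply ℝ ℂ j.succ).norm_sq ℝ
  · exact c.Psi_contDiff.comp (contDiff_apply ℝ ℂ (0 : Fin (m + 2)))

lemma R_continuous : Continuous (c.R m) := (c.R_contDiff m).continuous

lemma R_nonneg (v : Fin (m + 2) → ℂ) : 0 ≤ c.R m v := by
  unfold R
  have := c.Psi_nonneg (v 0)
  have : 0 ≤ ∑ j : Fin (m + 1), ‖v j.succ‖ ^ 2 := Finset.sum_nonneg fun j _ => by positivity
  linarith

lemma isOpen_Dom : IsOpen (c.Dom m) :=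
  (isOpen_lt ((continuous_apply 0).norm) continuous_const).inter
    (isOpen_lt (c.R_continuous m) continuous_const)

lemma zero_mem : (0 : Fin (m + 2) → ℂ) ∈ c.Dom m := by
  constructor
  · simp
  · simp [R, c.Psi_zero]

lemma isConnected_Dom : IsConnected (c.Dom m) := by
  have : StarConvex ℝ 0 (c.Dom m) := by
    rw [starConvex_zero_iff]
    intro v hv t ht0 ht1
    have hn : ∀ j : Fin (m + 2), ‖(t • v) j‖ ≤ ‖v j‖ := by
      intro j
      rw [Pi.smul_apply, norm_smul, Real.norm_eq_abs, abs_of_nonneg ht0]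
      have := norm_nonneg (v j)
      nlinarith
    refine ⟨(hn 0).trans_lt hv.1, lt_of_le_of_lt ?_ hv.2⟩
    unfold R
    apply add_le_add
    · apply Finset.sum_le_sum
      intro j _
      have := hn j.succ
      gcongr
    · exact c.Psi_mono (hn 0) hv.1.le
  exact (this.isPathConnected (c.zero_mem m)).isConnected

lemma norm_lt {v : Fin (m + 2) → ℂ} (hv : v ∈ c.Dom m) (j : Fin (m + 2)) : ‖v j‖ < 1 := by
  refine Fin.cases (motive := fun j => ‖v j‖ < 1) hv.1 (fun i => ?_) j
  have h1 : ‖v i.succ‖ ^ 2 ≤ ∑ j : Fin (m + 1), ‖v j.succ‖ ^ 2 :=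
    Finset.single_le_sum (f := fun j : Fin (m + 1) => ‖v j.succ‖ ^ 2)
      (fun _ _ => by positivity) (Finset.mem_univ i)
  have h2 := hv.2
  have h3 := c.Psi_nonneg (v 0)
  unfold R at h2
  have h4 : ‖v i.succ‖ ^ 2 < 1 := by linarith
  have := norm_nonneg (v i.succ)
  nlinarith

lemma isBounded_Dom : Bornology.IsBounded (c.Dom m) := by
  rw [isBounded_iff_forall_norm_le]
  refine ⟨1, fun v hv => ?_⟩
  rw [pi_norm_le_iff_of_nonneg zero_le_one]
  exact fun j => (c.norm_lt m hv j).le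

lemma frontier_Dom {p : Fin (m + 2) → ℂ} (hp : p ∈ frontier (c.Dom m)) :
    ‖p 0‖ < 1 ∧ c.R m p = 1 := by
  have hcl : closure (c.Dom m) ⊆ {v | ‖v 0‖ ≤ 1 ∧ c.R m v ≤ 1} := by
    apply closure_minimal
    · exact fun v hv => ⟨hv.1.le, hv.2.le⟩
    · exact (isClosed_le ((continuous_apply 0).norm) continuous_const).inter
        (isClosed_le (c.R_continuous m) continuous_const)
  rw [(c.isOpen_Dom m).frontier_eq] at hp
  obtain ⟨h1, h2⟩ := hcl hp.1
  have h3 : ‖p 0‖ < 1 := by
    refine lt_of_le_of_ne h1 fun h => ?_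
    have h4 := c.one_lt_Psi h
    unfold R at h2
    have : 0 ≤ ∑ j : Fin (m + 1), ‖p j.succ‖ ^ 2 := Finset.sum_nonneg fun j _ => by positivity
    linarith
  refine ⟨h3, le_antisymm h2 ?_⟩
  by_contra hcon
  push Not at hcon
  exact hp.2 ⟨h3, hcon⟩

lemma fderiv_ne {p : Fin (m + 2) → ℂ} (h0 : ‖p 0‖ < 1) (h1 : c.R m p = 1) :
    fderiv ℝ (fun v => c.R m v - 1) p ≠ 0 := by
  intro hz
  set P : ℝ → ℝ := fun s => c.R m ((exp s : ℝ) • p) - 1 with hP
  have hd : HasDerivAt P 0 0 := by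
    have h2 : HasFDerivAt (fun v => c.R m v - 1) (0 : (Fin (m + 2) → ℂ) →L[ℝ] ℝ) p := by
      rw [← hz]
      apply DifferentiableAt.hasFDerivAt
      exact (((c.R_contDiff m).differentiable (by simp)) p).sub_const 1
    have h3 : HasDerivAt (fun s : ℝ => (exp s : ℝ) • p) ((exp 0 : ℝ) • p) 0 :=
      (Real.hasDerivAt_exp 0).smul_const p
    have h4 : HasFDerivAt (fun v => c.R m v - 1) (0 : (Fin (m + 2) → ℂ) →L[ℝ] ℝ)
        ((fun s : ℝ => (exp s : ℝ) • p) 0) := by simpa using h2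
    have h5 := h4.comp_hasDerivAt (0 : ℝ) h3
    have h6 : ((fun v => c.R m v - 1) ∘ fun s : ℝ => (exp s : ℝ) • p) = P := rfl
    rw [h6] at h5
    simpa using h5
  -- lower bound of the growth
  obtain ⟨q, hq, hgrow⟩ : ∃ q : ℝ, 0 < q ∧ ∀ s : ℝ, 0 ≤ s → ‖(exp s : ℝ) • (p 0)‖ ≤ 1 →
      q * s ≤ P s := by
    by_cases hPsi : 0 < c.Psi (p 0)
    · obtain ⟨q, hq, hg⟩ := c.Psi_growth h0 hPsi
      refine ⟨q, hq, fun s hs hs1 => ?_⟩
      have h2 := hg s hs hs1
      have h3 : ∑ j : Fin (m + 1), ‖p j.succ‖ ^ 2 ≤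
          ∑ j : Fin (m + 1), ‖((exp s : ℝ) • p) j.succ‖ ^ 2 := by
        apply Finset.sum_le_sum
        intro j _
        have h4 : ‖p j.succ‖ ≤ ‖((exp s : ℝ) • p) j.succ‖ := by
          rw [Pi.smul_apply, norm_smul, Real.norm_eq_abs, abs_of_pos (exp_pos s)]
          have h5 : 1 ≤ exp s := one_le_exp hs
          nlinarith [norm_nonneg (p j.succ)]
        gcongr
      unfold R at h1
      simp only [hP, R]
      simp only [Pi.smul_apply] at h3 ⊢
      linarith
    · have hPsi0 : c.Psi (p 0) = 0 := le_antisymm (not_lt.1 hPsi) (c.Psi_nonneg _)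
      refine ⟨1, one_pos, fun s hs hs1 => ?_⟩
      have h2 := c.Psi_nonneg ((exp s : ℝ) • p 0)
      unfold R at h1
      rw [hPsi0, add_zero] at h1
      have h3 : ∑ j : Fin (m + 1), ‖((exp s : ℝ) • p) j.succ‖ ^ 2 = exp s ^ 2 := by
        have h4 : ∀ j : Fin (m + 1), ‖((exp s : ℝ) • p) j.succ‖ ^ 2 =
            exp s ^ 2 * ‖p j.succ‖ ^ 2 := by
          intro j
          rw [Pi.smul_apply, norm_smul, Real.norm_eq_abs, abs_of_pos (exp_pos s), mul_pow]
        simp only [h4]
        rw [← Finset.mul_sum, h1, mul_one]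
      have h4 : 1 + s ≤ exp s := by linarith [add_one_le_exp s]
      simp only [hP, R]
      rw [h3]
      simp only [Pi.smul_apply]
      nlinarith
  have ht := hd.tendsto_slope_zero_right
  have hev : ∀ᶠ s in 𝓝[>] (0 : ℝ), q ≤ s⁻¹ • (P (0 + s) - P 0) := by
    have hcont : Filter.Tendsto (fun s : ℝ => ‖(exp s : ℝ) • (p 0)‖) (𝓝[>] 0) (𝓝 ‖p 0‖) := by
      have : Continuous (fun s : ℝ => ‖(exp s : ℝ) • (p 0)‖) := by fun_prop
      have h2 := this.tendsto 0
      simp only [Real.exp_zero, one_smul] at h2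
      exact h2.mono_left nhdsWithin_le_nhds
    filter_upwards [hcont.eventually (gt_mem_nhds h0), self_mem_nhdsWithin] with s hs1 hs0
    have hs0' : (0 : ℝ) < s := hs0
    have h2 := hgrow s hs0'.le hs1.le
    have h3 : P 0 = 0 := by simp [hP, h1]
    rw [zero_add, h3, sub_zero, smul_eq_mul]
    rw [← div_eq_inv_mul, le_div_iff₀ hs0']
    exact h2
  have := ge_of_tendsto ht hev
  linarith

lemma hasBoundary : HasBoundaryOfClass ∞ (c.Dom m) := by
  intro p hp
  refine ⟨{v | ‖v 0‖ < 1}, fun v => c.R m v - 1,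
    isOpen_lt ((continuous_apply 0).norm) continuous_const, (c.frontier_Dom m hp).1, ?_, ?_, ?_⟩
  · exact ((c.R_contDiff m).sub contDiff_const).contDiffOn
  · ext v
    simp only [Dom, Set.mem_inter_iff, Set.mem_ofPred_eq, sub_neg]
    tauto
  · rintro x ⟨hx, -⟩
    obtain ⟨h1, h2⟩ := c.frontier_Dom m hx
    exact c.fderiv_ne m h1 h2

/-- the sub-mean value property of the square of the modulus -/
lemma sq_submean (a b : ℂ) :
    ‖a‖ ^ 2 ≤ circleAverage (fun ζ : ℂ => ‖a + ζ * b‖ ^ 2) 0 1 := by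
  have h1 : circleAverage (fun ζ : ℂ => ‖a‖ ^ 2 + 2 * ((starRingEnd ℂ) a * (ζ * b)).re) 0 1 =
      ‖a‖ ^ 2 := by
    have hc : DiffContOnCl ℂ (fun ζ : ℂ => (starRingEnd ℂ) a * (ζ * b)) (ball 0 |1|) := by
      apply Differentiable.diffContOnCl
      fun_prop
    have h2 := hc.circleAverage
    have hI : CircleIntegrable (fun ζ : ℂ => (starRingEnd ℂ) a * (ζ * b)) 0 1 := by
      apply ContinuousOn.circleIntegrable zero_le_one
      fun_prop
    have h3 := Complex.reCLM.circleAverage_comp_comm hI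
    rw [h2] at h3
    have hI2 : CircleIntegrable (fun ζ : ℂ => ((starRingEnd ℂ) a * (ζ * b)).re) 0 1 := by
      apply ContinuousOn.circleIntegrable zero_le_one
      fun_prop
    have h4 : CircleIntegrable (fun ζ : ℂ => (2 : ℝ) • ((starRingEnd ℂ) a * (ζ * b)).re) 0 1 :=
      hI2.const_smul
    have h5 := circleAverage_fun_add (circleIntegrable_const (‖a‖ ^ 2) 0 1) h4
    have h6 := circleAverage_fun_smul (a := (2 : ℝ))
      (f := fun ζ : ℂ => ((starRingEnd ℂ) a * (ζ * b)).re) (c := 0) (R := 1)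
    simp only [smul_eq_mul] at h5 h6
    rw [h5, h6, circleAverage_const]
    have h7 : circleAverage (fun ζ : ℂ => ((starRingEnd ℂ) a * (ζ * b)).re) 0 1 = 0 := by
      have : (⇑Complex.reCLM ∘ fun ζ : ℂ => (starRingEnd ℂ) a * (ζ * b)) =
        fun ζ : ℂ => ((starRingEnd ℂ) a * (ζ * b)).re := rfl
      rw [this] at h3
      rw [h3]
      simp
    rw [h7]
    ring
  rw [← h1]
  apply circleAverage_mono
  · apply ContinuousOn.circleIntegrable zero_le_one
    fun_prop
  · apply ContinuousOn.circleIntegrable zero_le_one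
    fun_prop
  · intro ζ _
    have h2 : ‖a + ζ * b‖ ^ 2 = ‖a‖ ^ 2 + 2 * ((starRingEnd ℂ) a * (ζ * b)).re + ‖ζ * b‖ ^ 2 := by
      rw [← Complex.normSq_eq_norm_sq, ← Complex.normSq_eq_norm_sq, ← Complex.normSq_eq_norm_sq]
      simp only [Complex.normSq_apply, Complex.add_re, Complex.add_im, Complex.mul_re,
        Complex.mul_im, Complex.conj_re, Complex.conj_im]
      ring
    rw [h2]
    have := sq_nonneg ‖ζ * b‖
    linarith

lemma R_submean {a b : Fin (m + 2) → ℂ} (h : ∀ ζ : ℂ, ‖ζ‖ ≤ 1 → ‖(a + ζ • b) 0‖ ≤ 1) :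
    c.R m a ≤ circleAverage (fun ζ : ℂ => c.R m (a + ζ • b)) 0 1 := by
  have hI : ∀ j : Fin (m + 1), CircleIntegrable
      (fun ζ : ℂ => ‖a j.succ + ζ * b j.succ‖ ^ 2) 0 1 := by
    intro j
    apply ContinuousOn.circleIntegrable zero_le_one
    fun_prop
  have hI2 : CircleIntegrable
      (fun ζ : ℂ => ∑ j : Fin (m + 1), ‖a j.succ + ζ * b j.succ‖ ^ 2) 0 1 := by
    apply ContinuousOn.circleIntegrable zero_le_one
    fun_prop
  have hI3 : CircleIntegrable (fun ζ : ℂ => c.Psi (a 0 + ζ * b 0)) 0 1 := by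
    apply ContinuousOn.circleIntegrable zero_le_one
    apply Continuous.continuousOn
    exact c.Psi_continuous.comp (by fun_prop)
  have h1 : (fun ζ : ℂ => c.R m (a + ζ • b)) = fun ζ : ℂ =>
      (∑ j : Fin (m + 1), ‖a j.succ + ζ * b j.succ‖ ^ 2) + c.Psi (a 0 + ζ * b 0) := by
    ext ζ
    simp [R]
  rw [h1, circleAverage_fun_add hI2 hI3, circleAverage_fun_sum (fun j _ => hI j)]
  unfold R
  apply add_le_add
  · apply Finset.sum_le_sum
    intro j _
    exact sq_submean _ _
  · apply c.Psi_submean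
    intro ζ hζ
    simpa using h ζ hζ

lemma isPseudoconvex_Dom : IsPseudoconvex (c.Dom m) := by
  refine ⟨fun v => (1 - c.R m v)⁻¹, ?_, ?_, ?_⟩
  · apply ContinuousOn.inv₀
    · exact (continuous_const.sub (c.R_continuous m)).continuousOn
    · intro v hv
      have := hv.2
      linarith
  · intro a b h
    have ha : a ∈ c.Dom m := by simpa using h 0 (by simp)
    have hR := c.R_submean m (a := a) (b := b) (fun ζ hζ => (h ζ hζ).1.le)
    set r0 := c.R m a with hr0
    have hr1 : r0 < 1 := ha.2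
    have hpos : 0 < 1 - r0 := by linarith
    have hcontR : ContinuousOn (fun ζ : ℂ => c.R m (a + ζ • b)) (sphere 0 1) := by
      apply Continuous.continuousOn
      exact (c.R_continuous m).comp (by fun_prop)
    have hIR : CircleIntegrable (fun ζ : ℂ => c.R m (a + ζ • b)) 0 1 :=
      ContinuousOn.circleIntegrable zero_le_one hcontR
    have hI1 : CircleIntegrable (fun ζ : ℂ => (1 - r0)⁻¹ ^ 2 • c.R m (a + ζ • b)) 0 1 :=
      hIR.const_smul
    have hI2 : CircleIntegrable (fun ζ : ℂ => (1 - c.R m (a + ζ • b))⁻¹) 0 1 := by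
      apply ContinuousOn.circleIntegrable zero_le_one
      apply ContinuousOn.inv₀ (continuousOn_const.sub hcontR)
      intro ζ hζ
      rw [mem_sphere_zero_iff_norm] at hζ
      have h2 := (h ζ hζ.le).2
      have h3 : 1 - c.R m (a + ζ • b) ≠ 0 := by
        intro h4
        linarith
      exact h3
    have h1 : circleAverage (fun ζ : ℂ => ((1 - r0)⁻¹ - (1 - r0)⁻¹ ^ 2 * r0) +
        (1 - r0)⁻¹ ^ 2 • c.R m (a + ζ • b)) 0 1 ≤
        circleAverage (fun ζ : ℂ => (1 - c.R m (a + ζ • b))⁻¹) 0 1 := by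
      apply circleAverage_mono
      · exact (circleIntegrable_const _ _ _).add hI1
      · exact hI2
      · intro ζ hζ
        have hζ' : ‖ζ‖ = 1 := by simpa using hζ
        have h2 := (h ζ hζ'.le).2
        set r := c.R m (a + ζ • b)
        have h3 : 0 < 1 - r := by linarith
        rw [smul_eq_mul]
        have h4 : (1 - r)⁻¹ - (((1 - r0)⁻¹ - (1 - r0)⁻¹ ^ 2 * r0) + (1 - r0)⁻¹ ^ 2 * r) =
            (r - r0) ^ 2 * ((1 - r0)⁻¹ ^ 2 * (1 - r)⁻¹) := by
          field_simp
          ring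
        have h5 : 0 ≤ (r - r0) ^ 2 * ((1 - r0)⁻¹ ^ 2 * (1 - r)⁻¹) := by positivity
        linarith
    refine le_trans ?_ h1
    have h5 := circleAverage_fun_add
      (circleIntegrable_const ((1 - r0)⁻¹ - (1 - r0)⁻¹ ^ 2 * r0) 0 1) hI1
    have h6 := circleAverage_fun_smul (a := (1 - r0)⁻¹ ^ 2)
      (f := fun ζ : ℂ => c.R m (a + ζ • b)) (c := 0) (R := 1)
    rw [h5, h6, circleAverage_const, smul_eq_mul]
    have h7 : (1 - r0)⁻¹ ^ 2 * r0 ≤
        (1 - r0)⁻¹ ^ 2 * circleAverage (fun ζ : ℂ => c.R m (a + ζ • b)) 0 1 := by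
      gcongr
    linarith
  · intro t
    rcases le_or_gt t 0 with ht | ht
    · have : {x ∈ c.Dom m | (1 - c.R m x)⁻¹ ≤ t} = ∅ := by
        ext x
        simp only [Set.mem_ofPred_eq, Set.mem_empty_iff_false, iff_false, not_and, not_le]
        intro hx
        have : 0 < (1 - c.R m x)⁻¹ := inv_pos.2 (by linarith [hx.2])
        linarith
      rw [this]
      exact isCompact_empty
    · have hset : {x ∈ c.Dom m | (1 - c.R m x)⁻¹ ≤ t} =
          {x | ‖x 0‖ ≤ 1 ∧ c.R m x ≤ 1 - t⁻¹} := by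
        ext x
        simp only [Set.mem_ofPred_eq]
        constructor
        · rintro ⟨hx, h1⟩
          have h2 : 0 < 1 - c.R m x := by linarith [hx.2]
          refine ⟨hx.1.le, ?_⟩
          have := (inv_le_comm₀ h2 ht).1 h1
          linarith
        · rintro ⟨hx1, hx2⟩
          have h3 : 0 < t⁻¹ := inv_pos.2 ht
          have hx3 : c.R m x < 1 := by linarith
          have hx4 : ‖x 0‖ < 1 := by
            refine lt_of_le_of_ne hx1 fun hh => ?_
            have h4 := c.one_lt_Psi hh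
            unfold R at hx3
            have : 0 ≤ ∑ j : Fin (m + 1), ‖x j.succ‖ ^ 2 :=
              Finset.sum_nonneg fun j _ => by positivity
            linarith
          refine ⟨⟨hx4, hx3⟩, ?_⟩
          have h2 : 0 < 1 - c.R m x := by linarith
          rw [inv_le_comm₀ h2 ht]
          linarith
      apply Metric.isCompact_of_isClosed_isBounded
      · rw [hset]
        exact (isClosed_le ((continuous_apply 0).norm) continuous_const).inter
          (isClosed_le (c.R_continuous m) continuous_const)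
      · exact (c.isBounded_Dom m).subset (fun x hx => hx.1)

end Coef

end Pool.Agent.Work.MP_68919f_an
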