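import Mathlib
import Pool.Agent.Work.MP_68919f_an.Bump

/-!
# The estimate for holomorphic discs
-/

namespace Pool.Agent.Work.MP_68919f_an

open Real Metric
open scoped ContDiff Topology ComplexConjugate

lemma norm_circleAverage_le (f : ℂ → ℂ) (R : ℝ) :
    ‖circleAverage f 0 R‖ ≤ circleAverage (fun ζ => ‖f ζ‖) 0 R := by
  simp only [circleAverage]
  rw [norm_smul, Real.norm_eq_abs, abs_of_pos (by positivity), smul_eq_mul]
  gcongr
  exact intervalIntegral.norm_integral_le_integral_norm (by positivity)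

/-- Cauchy's formula for the derivative, as a circle average -/
lemma deriv_eq_circleAverage {g : ℂ → ℂ} (hg : DifferentiableOn ℂ g (ball 0 1)) :
    deriv g 0 = circleAverage (fun ζ => ζ⁻¹ * g ζ) 0 (1 / 2) := by
  rw [circleAverage_eq_circleIntegral (by norm_num)]
  have h1 : DiffContOnCl ℂ g (ball 0 (1 / 2)) := by
    apply DifferentiableOn.diffContOnCl
    apply hg.mono
    rw [closure_ball _ (by norm_num)]
    exact closedBall_subset_ball (by norm_num)
  have h2 := h1.deriv_eq_smul_circleIntegral (by norm_num)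
  have h3 : (∮ z in C(0, 1 / 2), (z - 0)⁻¹ • (z⁻¹ * g z)) =
      ∮ z in C(0, 1 / 2), (1 / (z - 0) ^ 2) • g z := by
    congr 1
    ext z
    simp only [sub_zero, smul_eq_mul]
    rw [one_div, pow_two, mul_inv, mul_assoc]
  rw [h3, h2, smul_smul, inv_mul_cancel₀ Complex.two_pi_I_ne_zero, one_smul]

/-- the average of the conjugate part vanishes -/
lemma circleAverage_conj {g : ℂ → ℂ} (hg : DifferentiableOn ℂ g (ball 0 1)) :
    circleAverage (fun ζ => ζ⁻¹ * conj (g ζ)) 0 (1 / 2) = 0 := by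
  have hsub : closedBall (0 : ℂ) (1 / 2) ⊆ ball 0 1 := closedBall_subset_ball (by norm_num)
  have hd : DifferentiableOn ℂ (fun ζ : ℂ => 4 * ζ * g ζ) (ball 0 1) := by
    apply DifferentiableOn.mul _ hg
    fun_prop
  have h1 : DiffContOnCl ℂ (fun ζ : ℂ => 4 * ζ * g ζ) (ball 0 |1 / 2|) := by
    apply DifferentiableOn.diffContOnCl
    apply hd.mono
    rw [closure_ball _ (by norm_num)]
    apply closedBall_subset_ball
    rw [abs_of_pos] <;> norm_num
  have h2 := h1.circleAverage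
  have hI : CircleIntegrable (fun ζ : ℂ => 4 * ζ * g ζ) 0 (1 / 2) := by
    apply ContinuousOn.circleIntegrable (by norm_num)
    exact hd.continuousOn.mono (sphere_subset_closedBall.trans hsub)
  have h3 := ContinuousLinearMap.circleAverage_comp_comm
    (Complex.conjCLE.toContinuousLinearMap) hI
  rw [h2] at h3
  have h4 : circleAverage (fun ζ => ζ⁻¹ * conj (g ζ)) 0 (1 / 2) =
      circleAverage (⇑(Complex.conjCLE.toContinuousLinearMap) ∘ fun ζ : ℂ => 4 * ζ * g ζ)
        0 (1 / 2) := by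
    apply circleAverage_congr_sphere
    intro ζ hζ
    have hζ1 : ‖ζ‖ = 1 / 2 := by
      rw [mem_sphere_zero_iff_norm] at hζ
      rw [hζ, abs_of_pos]; norm_num
    have hζ0 : ζ ≠ 0 := by
      rw [← norm_pos_iff, hζ1]; norm_num
    have h5 : ζ * conj ζ = 1 / 4 := by
      rw [Complex.mul_conj, Complex.normSq_eq_norm_sq, hζ1]
      norm_num
    have h6 : ζ⁻¹ = 4 * conj ζ := by
      field_simp
      linear_combination (-4) * h5
    simp only [Function.comp_apply, ContinuousLinearEquiv.coe_coe, Complex.conjCLE_apply, map_mul]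
    rw [h6]
    have : conj (4 : ℂ) = 4 := by
      exact Complex.conj_ofNat 4
    rw [this]
  rw [h4, h3]
  simp

/-- The main estimate. -/
lemma key_estimate {f g : ℂ → ℂ} (hf : DifferentiableOn ℂ f (ball 0 1))
    (hg : DifferentiableOn ℂ g (ball 0 1)) (hf1 : ∀ ζ ∈ ball (0 : ℂ) 1, ‖f ζ‖ ≤ 1) (f0 : f 0 = 0)
    {ε a : ℝ} (hε : 0 < ε) (hε1 : ε ≤ 1) (ha : 0 < a)
    (h : ∀ ζ ∈ ball (0 : ℂ) 1, a / 2 * U ε (f ζ) ≤ 1 - (g ζ).re) (hd : deriv f 0 ≠ 0) :
    ‖deriv g 0‖ ≤ 4 * ((1 - (g 0).re) + a * log (1 / ε) -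
      a * (2 * log (‖deriv f 0‖ / (2 * ε)) - 1)) := by
  have hsub : closedBall (0 : ℂ) (1 / 2) ⊆ ball 0 1 := closedBall_subset_ball (by norm_num)
  have hsph : ∀ ζ ∈ sphere (0 : ℂ) |1 / 2|, ‖ζ‖ = 1 / 2 := by
    intro ζ hζ
    rw [mem_sphere_zero_iff_norm] at hζ
    rw [hζ, abs_of_pos]; norm_num
  have hsph2 : sphere (0 : ℂ) (1 / 2) ⊆ ball 0 1 := sphere_subset_closedBall.trans hsub
  have hsphb : ∀ ζ ∈ sphere (0 : ℂ) |1 / 2|, ζ ∈ ball (0 : ℂ) 1 := by
    intro ζ hζ
    rw [mem_ball_zero_iff, hsph ζ hζ]; norm_num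
  set c0 : ℝ := a * log (1 / ε) with hc0
  set L : ℂ → ℝ := fun ζ => a / 2 * U ε (f ζ) with hL
  have hLc : ContinuousOn L (sphere (0 : ℂ) (1 / 2)) := by
    apply ContinuousOn.mul continuousOn_const
    exact (U_continuous hε).comp_continuousOn (hf.continuousOn.mono hsph2)
  have hLI : CircleIntegrable L 0 (1 / 2) := ContinuousOn.circleIntegrable (by norm_num) hLc
  have hgc : ContinuousOn g (sphere (0 : ℂ) (1 / 2)) := hg.continuousOn.mono hsph2
  have hhc : ContinuousOn (fun ζ => 1 - (g ζ).re) (sphere (0 : ℂ) (1 / 2)) :=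
    continuousOn_const.sub (Complex.continuous_re.comp_continuousOn hgc)
  have hhI : CircleIntegrable (fun ζ => 1 - (g ζ).re) 0 (1 / 2) :=
    ContinuousOn.circleIntegrable (by norm_num) hhc
  -- the mean of `h`
  have hmean : circleAverage (fun ζ => 1 - (g ζ).re) 0 (1 / 2) = 1 - (g 0).re := by
    have hd1 : DifferentiableOn ℂ (fun ζ : ℂ => 1 - g ζ) (ball 0 1) :=
      (differentiableOn_const 1).sub hg
    have h1 : DiffContOnCl ℂ (fun ζ : ℂ => 1 - g ζ) (ball 0 |1 / 2|) := by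
      apply DifferentiableOn.diffContOnCl
      apply hd1.mono
      rw [closure_ball _ (by norm_num)]
      apply closedBall_subset_ball
      rw [abs_of_pos] <;> norm_num
    have h2 := h1.circleAverage
    have hI : CircleIntegrable (fun ζ : ℂ => 1 - g ζ) 0 (1 / 2) := by
      apply ContinuousOn.circleIntegrable (by norm_num)
      exact hd1.continuousOn.mono hsph2
    have h3 := ContinuousLinearMap.circleAverage_comp_comm Complex.reCLM hI
    rw [h2] at h3
    have h4 : (⇑Complex.reCLM ∘ fun ζ : ℂ => 1 - g ζ) = fun ζ => 1 - (g ζ).re := by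
      ext ζ; simp
    rw [h4] at h3
    rw [h3]
    simp
  -- the mean of `L`
  have hLmean : a * (log (‖deriv f 0‖ / (2 * ε)) - 1 / 2) ≤ circleAverage L 0 (1 / 2) := by
    set G : ℂ → ℂ := fun ζ => dslope f 0 ζ / (2 * ε) with hG
    have hds : DifferentiableOn ℂ (dslope f 0) (ball 0 1) :=
      (Complex.differentiableOn_dslope (ball_mem_nhds (0 : ℂ) one_pos)).2 hf
    have hGd : DifferentiableOn ℂ G (ball 0 1) := hds.div_const _
    have hGa : AnalyticOnNhd ℂ G (closedBall 0 (1 / 2)) :=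
      (hGd.analyticOnNhd isOpen_ball).mono hsub
    have hG0n : ‖G 0‖ = ‖deriv f 0‖ / (2 * ε) := by
      rw [hG]
      simp only [dslope_same, norm_div, norm_mul, Complex.norm_ofNat, Complex.norm_real,
        Real.norm_eq_abs, abs_of_pos hε]
    have hG0 : G 0 ≠ 0 := by
      rw [← norm_pos_iff, hG0n]
      have := norm_pos_iff.2 hd
      positivity
    have hJ := log_norm_le_circleAverage (by norm_num : (0 : ℝ) < 1 / 2) hGa hG0
    have hJI := circleIntegrable_log (by norm_num : (0 : ℝ) < 1 / 2) hGa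
    have hJI1 : CircleIntegrable (fun ζ => a • log ‖G ζ‖) 0 (1 / 2) := hJI.const_smul
    have hJI2 : CircleIntegrable (fun ζ => -(a / 2) + a • log ‖G ζ‖) 0 (1 / 2) :=
      (circleIntegrable_const _ _ _).add hJI1
    have hmono := circleAverage_mono hJI2 hLI (by
      intro ζ hζ
      have h1 := hsph ζ hζ
      have hζ0 : ζ ≠ 0 := by rw [← norm_pos_iff, h1]; norm_num
      have h2 : ‖G ζ‖ = ‖f ζ‖ / ε := by
        rw [hG]
        simp only [norm_div, norm_mul, Complex.norm_ofNat, Complex.norm_real,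
          Real.norm_eq_abs, abs_of_pos hε]
        rw [dslope_of_ne _ hζ0, slope_def_field, f0, sub_zero, sub_zero, norm_div, h1]
        field_simp
      rw [h2, smul_eq_mul]
      have h3 := le_U ε (f ζ)
      simp only [hL]
      nlinarith)
    have h5 := circleAverage_fun_add (circleIntegrable_const (-(a / 2)) 0 (1 / 2)) hJI1
    have h6 := circleAverage_fun_smul (a := a)
      (f := fun ζ : ℂ => log ‖G ζ‖) (c := 0) (R := 1 / 2)
    simp only [smul_eq_mul] at h5 h6 hmono
    rw [h5, h6, circleAverage_const] at hmono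
    rw [hG0n] at hJ
    have h7 := mul_le_mul_of_nonneg_left hJ ha.le
    linarith
  -- `L` is bounded
  have hLle : ∀ ζ ∈ sphere (0 : ℂ) |1 / 2|, L ζ ≤ c0 := by
    intro ζ hζ
    have h1 := U_le hε hε1 (hf1 ζ (hsphb ζ hζ))
    simp only [hL, hc0]
    nlinarith
  -- the mean of `|h - c0|`
  have hmain : circleAverage (fun ζ => |(1 - (g ζ).re) - c0|) 0 (1 / 2) ≤
      (1 - (g 0).re) + c0 - 2 * circleAverage L 0 (1 / 2) := by
    have hA : CircleIntegrable (fun ζ => |(1 - (g ζ).re) - c0|) 0 (1 / 2) :=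
      ContinuousOn.circleIntegrable (by norm_num) (hhc.sub continuousOn_const).abs
    have hB1 : CircleIntegrable (fun ζ => (1 - (g ζ).re) + c0) 0 (1 / 2) :=
      hhI.add (circleIntegrable_const _ _ _)
    have hB2 : CircleIntegrable (fun ζ => (2 : ℝ) • L ζ) 0 (1 / 2) := hLI.const_smul
    have hB : CircleIntegrable (fun ζ => ((1 - (g ζ).re) + c0) - (2 : ℝ) • L ζ) 0 (1 / 2) :=
      hB1.sub hB2
    have hmono := circleAverage_mono hA hB (by
      intro ζ hζ
      have h1 := hLle ζ hζ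
      have h2 := h ζ (hsphb ζ hζ)
      have h3 : L ζ ≤ 1 - (g ζ).re := h2
      rw [smul_eq_mul, abs_le]
      constructor <;> linarith)
    have h5 := circleAverage_fun_sub hB1 hB2
    have h6 := circleAverage_fun_smul (a := (2 : ℝ)) (f := L) (c := 0) (R := 1 / 2)
    have h7 := circleAverage_fun_add hhI (circleIntegrable_const c0 0 (1 / 2))
    rw [h5, h6, h7, circleAverage_const, hmean, smul_eq_mul] at hmono
    exact hmono
  -- the derivative
  have hder : deriv g 0 = circleAverage (fun ζ => -2 * ζ⁻¹ * (((1 - (g ζ).re) - c0 : ℝ) : ℂ))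
      0 (1 / 2) := by
    have hinv : ContinuousOn (fun ζ : ℂ => ζ⁻¹) (sphere (0 : ℂ) (1 / 2)) := by
      apply ContinuousOn.inv₀ continuousOn_id
      intro ζ hζ
      rw [mem_sphere_zero_iff_norm] at hζ
      intro h0
      simp only [id_eq] at h0
      rw [h0, norm_zero] at hζ
      norm_num at hζ
    have e1 := deriv_eq_circleAverage hg
    have e2 := circleAverage_conj hg
    have e3 := deriv_eq_circleAverage (g := fun _ => (2 * c0 - 2 : ℂ)) (differentiableOn_const _)
    have i1 : CircleIntegrable (fun ζ => ζ⁻¹ * g ζ) 0 (1 / 2) :=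
      ContinuousOn.circleIntegrable (by norm_num) (hinv.mul hgc)
    have i2 : CircleIntegrable (fun ζ => ζ⁻¹ * conj (g ζ)) 0 (1 / 2) :=
      ContinuousOn.circleIntegrable (by norm_num)
        (hinv.mul (Complex.continuous_conj.comp_continuousOn hgc))
    have i3 : CircleIntegrable (fun ζ : ℂ => ζ⁻¹ * (2 * c0 - 2 : ℂ)) 0 (1 / 2) :=
      ContinuousOn.circleIntegrable (by norm_num) (hinv.mul continuousOn_const)
    have i12 : CircleIntegrable (fun ζ => ζ⁻¹ * g ζ + ζ⁻¹ * conj (g ζ)) 0 (1 / 2) := i1.add i2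
    have s1 := circleAverage_fun_add i1 i2
    have s2 := circleAverage_fun_add i12 i3
    rw [deriv_const] at e3
    have : (fun ζ => -2 * ζ⁻¹ * (((1 - (g ζ).re) - c0 : ℝ) : ℂ)) =
        fun ζ => (ζ⁻¹ * g ζ + ζ⁻¹ * conj (g ζ)) + ζ⁻¹ * (2 * c0 - 2 : ℂ) := by
      ext ζ
      have h1 : g ζ + conj (g ζ) = (2 * (g ζ).re : ℂ) := by
        rw [Complex.add_conj]
        push_cast
        ring
      have h2 : ζ⁻¹ * g ζ + ζ⁻¹ * conj (g ζ) = ζ⁻¹ * (2 * (g ζ).re : ℂ) := by
        rw [← mul_add, h1]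
      rw [h2]
      push_cast
      ring
    rw [this]
    rw [s2, s1, ← e1, e2, ← e3]
    simp
  have hfin : ‖deriv g 0‖ ≤ 4 * circleAverage (fun ζ => |(1 - (g ζ).re) - c0|) 0 (1 / 2) := by
    rw [hder]
    refine (norm_circleAverage_le _ _).trans ?_
    have h6 := circleAverage_fun_smul (a := (4 : ℝ)) (f := fun ζ : ℂ => |(1 - (g ζ).re) - c0|)
      (c := 0) (R := 1 / 2)
    simp only [smul_eq_mul] at h6
    rw [← h6]
    apply le_of_eq
    apply circleAverage_congr_sphere
    intro ζ hζ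
    have h1 := hsph ζ hζ
    simp only [norm_mul, norm_neg, Complex.norm_ofNat, norm_inv, Complex.norm_real,
      Real.norm_eq_abs]
    rw [h1]
    norm_num
  calc ‖deriv g 0‖ ≤ 4 * circleAverage (fun ζ => |(1 - (g ζ).re) - c0|) 0 (1 / 2) := hfin
    _ ≤ 4 * ((1 - (g 0).re) + c0 - 2 * circleAverage L 0 (1 / 2)) := by gcongr
    _ ≤ _ := by linarith

/-- A bound of the second order term. -/
lemma dslope_bound {f : ℂ → ℂ} (hf : DifferentiableOn ℂ f (ball 0 1))
    (hf1 : ∀ ζ ∈ ball (0 : ℂ) 1, ‖f ζ‖ ≤ 1) {α : ℂ} (hα : α ∈ ball (0 : ℂ) 1) :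
    ‖f α - f 0‖ ≤ (‖deriv f 0‖ + 4 * ‖α‖) * ‖α‖ := by
  have h0 : (0 : ℂ) ∈ ball (0 : ℂ) 1 := mem_ball_self one_pos
  have hmaps : Set.MapsTo f (ball 0 1) (closedBall (f 0) 2) := by
    intro ζ hζ
    rw [mem_closedBall, dist_eq_norm]
    have := norm_sub_le (f ζ) (f 0)
    have h1 := hf1 ζ hζ
    have h2 := hf1 0 h0
    linarith
  have hds : DifferentiableOn ℂ (dslope f 0) (ball 0 1) :=
    (Complex.differentiableOn_dslope (ball_mem_nhds (0 : ℂ) one_pos)).2 hf
  have hb : ∀ ζ ∈ ball (0 : ℂ) 1, ‖dslope f 0 ζ‖ ≤ 2 := by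
    intro ζ hζ
    have := Complex.norm_dslope_le_div_of_mapsTo_ball hf hmaps hζ
    simpa using this
  have hmaps2 : Set.MapsTo (dslope f 0) (ball 0 1) (closedBall (dslope f 0 0) 4) := by
    intro ζ hζ
    rw [mem_closedBall, dist_eq_norm]
    have := norm_sub_le (dslope f 0 ζ) (dslope f 0 0)
    have h1 := hb ζ hζ
    have h2 := hb 0 h0
    linarith
  have h1 := Complex.dist_le_div_mul_dist_of_mapsTo_ball hds hmaps2 hα
  rw [dist_eq_norm, dist_zero_right, dslope_same, div_one] at h1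
  have h2 : ‖dslope f 0 α‖ ≤ ‖deriv f 0‖ + 4 * ‖α‖ := by
    have := norm_add_le (dslope f 0 α - deriv f 0) (deriv f 0)
    rw [sub_add_cancel] at this
    linarith
  have h3 : f α - f 0 = (α - 0) • dslope f 0 α := (sub_smul_dslope f 0 α).symm
  rw [h3, sub_zero, smul_eq_mul, norm_mul, mul_comm]
  gcongr

end Pool.Agent.Work.MP_68919f_an
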