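import Mathlib
import Pool.Agent.Work.MP_68919f_an.Domain
import Pool.Agent.Work.MP_68919f_an.Lower

/-!
# The quasi triangle inequality fails
-/

namespace Pool.Agent.Work.MP_68919f_an

open Real Metric
open scoped ContDiff Topology

/-- the infimum is at most the value of any disc -/
lemma lempert_le {n : ℕ} {D : Set (Fin n → ℂ)} {φ : ℂ → Fin n → ℂ} {α : ℂ}
    (h1 : DifferentiableOn ℂ φ (ball 0 1)) (h2 : Set.MapsTo φ (ball 0 1) D)
    (h3 : α ∈ ball (0 : ℂ) 1) : lempert D (φ 0) (φ α) ≤ ‖α‖ := by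
  apply csInf_le
  · refine ⟨0, ?_⟩
    rintro r ⟨ψ, β, -, -, -, -, -, rfl⟩
    exact norm_nonneg _
  · exact ⟨φ, α, h1, h2, h3, rfl, rfl, rfl⟩

/-- points of the plane of the first two coordinates -/
def pt (m : ℕ) (u w : ℂ) : Fin (m + 2) → ℂ := Matrix.vecCons u (Matrix.vecCons w 0)

lemma pt_zero (m : ℕ) (u w : ℂ) : pt m u w 0 = u := rfl

lemma pt_one (m : ℕ) (u w : ℂ) : pt m u w 1 = w := rfl

lemma pt_one' (m : ℕ) (u w : ℂ) : pt m u w (Fin.succ 0) = w := rfl

lemma pt_differentiable {m : ℕ} {F G : ℂ → ℂ} (hF : Differentiable ℂ F)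
    (hG : Differentiable ℂ G) : Differentiable ℂ (fun ζ => pt m (F ζ) (G ζ)) := by
  rw [differentiable_pi]
  intro i
  refine Fin.cases ?_ (fun i => ?_) i
  · exact hF
  · refine Fin.cases ?_ (fun i => ?_) i
    · exact hG
    · exact differentiable_const 0

namespace Coef

variable (c : Coef) (m : ℕ)

lemma R_pt (u w : ℂ) : c.R m (pt m u w) = ‖w‖ ^ 2 + c.Psi u := by
  unfold R
  rw [Fin.sum_univ_succ]
  have h : ∀ j : Fin m, ‖pt m u w j.succ.succ‖ ^ 2 = 0 := by
    intro j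
    simp [pt]
  simp [h, pt_zero, pt_one]

lemma pt_mem {u w : ℂ} (h1 : ‖u‖ < 1) (h2 : ‖w‖ ^ 2 + c.Psi u < 1) : pt m u w ∈ c.Dom m :=
  ⟨h1, by rw [R_pt]; exact h2⟩

/-- the parameter of the scale -/
noncomputable def K (k : ℕ) : ℝ := Q (k + 1) - Q k

lemma K_eq (k : ℕ) : K k = (k + 1) * Q k := by
  unfold K
  rw [Q_succ]
  ring

lemma K_ge (k : ℕ) : 1 ≤ K k := by
  rw [K_eq]
  have := Q_ge k
  have h2 : (0 : ℝ) ≤ k := Nat.cast_nonneg k
  nlinarith

lemma aK (k : ℕ) : c.a (k + 1) * K k ^ 2 ≤ 1 / 2 := by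
  have h1 := c.small2 k
  have h2 : K k ≤ Q (k + 1) := by
    unfold K
    linarith [Q_ge k]
  have h3 := K_ge k
  have h4 := c.pos (k + 1)
  have h5 : c.a (k + 1) * K k ^ 2 ≤ c.a (k + 1) * Q (k + 1) ^ 2 := by gcongr
  linarith

/-- the distance to the boundary -/
noncomputable def dl (k : ℕ) : ℝ := c.a (k + 1) * K k

lemma dl_pos (k : ℕ) : 0 < c.dl k := mul_pos (c.pos _) (by linarith [K_ge k])

lemma dl_le (k : ℕ) : c.dl k ≤ 1 / 2 := by
  have h1 := c.aK k
  have h2 := K_ge k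
  have h3 := c.pos (k + 1)
  unfold dl
  nlinarith [mul_pos h3 (by linarith : 0 < K k)]

/-- the radius -/
noncomputable def rd (k : ℕ) : ℝ := exp (-1) * eps k

lemma rd_pos (k : ℕ) : 0 < rd k := mul_pos (exp_pos _) (eps_pos _)

lemma rd_lt (k : ℕ) : rd k < 1 := by
  unfold rd
  have h1 : exp (-1) < 1 := by rw [exp_lt_one_iff]; norm_num
  have h2 := eps_le_one k
  have h3 := eps_pos k
  have h4 := exp_pos (-1)
  nlinarith

lemma mem_scale (k : ℕ) {u w : ℂ} {s : ℝ} (hu : ‖u‖ ≤ rd k) (hs0 : 0 ≤ s)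
    (hs : s * (4 * K k) ≤ 1) (hw : ‖w‖ ≤ 1 - c.dl k * (1 - s)) : pt m u w ∈ c.Dom m := by
  have hK := K_ge k
  have ha := c.pos (k + 1)
  have hs1 : s ≤ 1 := by nlinarith
  apply c.pt_mem m (hu.trans_lt (rd_lt k))
  have h1 := c.Psi_le k hu
  have h2 : ‖w‖ ^ 2 ≤ (1 - c.dl k * (1 - s)) ^ 2 := by gcongr
  have h3 : (1 - c.dl k * (1 - s)) ^ 2 ≤ 1 - 2 * c.dl k + 2 * c.dl k * s + c.dl k ^ 2 := by
    have h4 : (1 - c.dl k * (1 - s)) ^ 2 =
        1 - 2 * c.dl k + 2 * c.dl k * s + c.dl k ^ 2 * (1 - s) ^ 2 := by ring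
    have h5 : (1 - s) ^ 2 ≤ 1 := by nlinarith
    have h6 : c.dl k ^ 2 * (1 - s) ^ 2 ≤ c.dl k ^ 2 * 1 := by gcongr
    linarith
  have h4 : Q (k + 1) - Q k = K k := rfl
  rw [h4] at h1
  have h5 : 2 * c.dl k * s ≤ c.a (k + 1) * (1 / 2) := by
    unfold dl
    nlinarith
  have h6 : c.dl k ^ 2 ≤ c.a (k + 1) * (1 / 2) := by
    have h7 := c.aK k
    unfold dl
    have : (c.a (k + 1) * K k) ^ 2 = c.a (k + 1) * (c.a (k + 1) * K k ^ 2) := by ring
    rw [this]
    gcongr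
  have h7 : 2 * c.dl k = c.a (k + 1) * (2 * K k) := by unfold dl; ring
  rw [h7] at h3
  have h8 : 2 * c.dl k * s = c.a (k + 1) * (2 * K k) * s := by rw [h7]
  rw [h8] at h5
  nlinarith

/-- The Lempert function does not satisfy a quasi triangle inequality. -/
theorem not_QTI : ¬ SatisfiesQTI (c.Dom m) := by
  rintro ⟨C, hC, hQ⟩
  set A : ℝ := 3 * C with hA
  have hA3 : 3 ≤ A := by linarith
  have hA0 : 0 < A := by linarith
  obtain ⟨k, hk⟩ := exists_nat_gt (8 * A * (4 + 2 * log (4 * A)))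
  have hK := K_ge k
  have hq := Q_ge k
  have ha := c.pos (k + 1)
  have hdl := c.dl_pos k
  have hdl2 := c.dl_le k
  have hr := rd_pos k
  -- the parameter `t`
  obtain ⟨t, ht0, ht1, ht2, ht3⟩ : ∃ t : ℝ, 0 < t ∧ t * (8 * K k) ≤ 1 ∧
      t * (8 * A ^ 2) ≤ rd k ∧ t * (8 * A ^ 2) ≤ c.dl k := by
    refine ⟨min (1 / (8 * K k)) (min (rd k / (8 * A ^ 2)) (c.dl k / (8 * A ^ 2))), ?_, ?_, ?_, ?_⟩
    · refine lt_min (by positivity) (lt_min (by positivity) (by positivity))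
    · rw [← le_div_iff₀ (by positivity)]
      exact min_le_left _ _
    · rw [← le_div_iff₀ (by positivity)]
      exact (min_le_right _ _).trans (min_le_left _ _)
    · rw [← le_div_iff₀ (by positivity)]
      exact (min_le_right _ _).trans (min_le_right _ _)
  have htlt : t < 1 := by nlinarith
  have htn : ‖(t : ℂ)‖ = t := by rw [Complex.norm_real, Real.norm_eq_abs, abs_of_pos ht0]
  have htb : (t : ℂ) ∈ ball (0 : ℂ) 1 := by rw [mem_ball_zero_iff, htn]; exact htlt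
  set δ : ℝ := c.dl k with hδ
  set x : Fin (m + 2) → ℂ := pt m 0 ((1 - δ : ℝ) : ℂ) with hx
  set y : Fin (m + 2) → ℂ := pt m 0 ((1 - δ * (1 - t) : ℝ) : ℂ) with hy
  set z : Fin (m + 2) → ℂ := pt m ((rd k * t : ℝ) : ℂ) ((1 - δ * (1 - t) : ℝ) : ℂ) with hz
  have hxD : x ∈ c.Dom m := by
    apply c.mem_scale m k (s := 0) (by simpa using hr.le) le_rfl (by norm_num)
    rw [Complex.norm_real, Real.norm_eq_abs, abs_of_pos (by linarith)]
    simp [hδ]
  have h1t : 0 < 1 - δ * (1 - t) := by nlinarith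
  have hyD : y ∈ c.Dom m := by
    apply c.mem_scale m k (s := t) (by simpa using hr.le) ht0.le (by nlinarith)
    rw [Complex.norm_real, Real.norm_eq_abs, abs_of_pos h1t]
  have hzD : z ∈ c.Dom m := by
    apply c.mem_scale m k (s := t) _ ht0.le (by nlinarith)
    · rw [Complex.norm_real, Real.norm_eq_abs, abs_of_pos h1t]
    · rw [Complex.norm_real, Real.norm_eq_abs, abs_of_pos (by positivity)]
      nlinarith
  -- the disc from `x` to `y`
  have hxy : lempert (c.Dom m) x y ≤ t := by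
    have h1 : DifferentiableOn ℂ (fun ζ : ℂ => pt m 0 (((1 - δ : ℝ) : ℂ) + δ * ζ)) (ball 0 1) :=
      (pt_differentiable (differentiable_const 0) (by fun_prop)).differentiableOn
    have h2 : Set.MapsTo (fun ζ : ℂ => pt m 0 (((1 - δ : ℝ) : ℂ) + δ * ζ)) (ball 0 1)
        (c.Dom m) := by
      intro ζ hζ
      rw [mem_ball_zero_iff] at hζ
      apply c.pt_mem m (by simp)
      rw [c.Psi_zero, add_zero]
      have h3 : ‖((1 - δ : ℝ) : ℂ) + δ * ζ‖ < 1 := by
        refine (norm_add_le _ _).trans_lt ?_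
        rw [norm_mul, Complex.norm_real, Complex.norm_real, Real.norm_eq_abs, Real.norm_eq_abs,
          abs_of_pos (by linarith), abs_of_pos hdl]
        nlinarith
      have h4 := norm_nonneg (((1 - δ : ℝ) : ℂ) + δ * ζ)
      nlinarith
    have h3 := lempert_le h1 h2 htb
    rw [htn] at h3
    have e1 : pt m 0 (((1 - δ : ℝ) : ℂ) + δ * 0) = x := by rw [mul_zero, add_zero]
    have e2 : pt m 0 (((1 - δ : ℝ) : ℂ) + δ * t) = y := by
      rw [hy]
      congr 1
      push_cast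
      ring
    simp only [e1, e2] at h3
    exact h3
  -- the disc from `y` to `z`
  have hyz : lempert (c.Dom m) y z ≤ t := by
    have h1 : DifferentiableOn ℂ (fun ζ : ℂ => pt m (rd k * ζ) ((1 - δ * (1 - t) : ℝ) : ℂ))
        (ball 0 1) :=
      (pt_differentiable (by fun_prop) (differentiable_const _)).differentiableOn
    have h2 : Set.MapsTo (fun ζ : ℂ => pt m (rd k * ζ) ((1 - δ * (1 - t) : ℝ) : ℂ)) (ball 0 1)
        (c.Dom m) := by
      intro ζ hζ
      rw [mem_ball_zero_iff] at hζ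
      apply c.mem_scale m k (s := t) _ ht0.le (by nlinarith)
      · rw [Complex.norm_real, Real.norm_eq_abs, abs_of_pos h1t]
      · rw [norm_mul, Complex.norm_real, Real.norm_eq_abs, abs_of_pos hr]
        nlinarith
    have h3 := lempert_le h1 h2 htb
    rw [htn] at h3
    have e1 : pt m (rd k * 0) ((1 - δ * (1 - t) : ℝ) : ℂ) = y := by rw [mul_zero]
    have e2 : pt m (rd k * t) ((1 - δ * (1 - t) : ℝ) : ℂ) = z := by
      rw [hz]
      congr 1
      push_cast
      ring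
    simp only [e1, e2] at h3
    exact h3
  -- a disc from `x` to `z` with a small parameter
  have hlt : lempert (c.Dom m) x z < A * t := by
    have h1 := hQ x hxD y hyD z hzD
    have h2 : C * (lempert (c.Dom m) x y + lempert (c.Dom m) y z) ≤ C * (t + t) := by gcongr
    have h3 : C * (t + t) < A * t := by rw [hA]; nlinarith
    linarith
  have hne : {r : ℝ | ∃ (φ : ℂ → Fin (m + 2) → ℂ) (α : ℂ),
      DifferentiableOn ℂ φ (Metric.ball 0 1) ∧ Set.MapsTo φ (Metric.ball 0 1) (c.Dom m) ∧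
      α ∈ Metric.ball (0 : ℂ) 1 ∧ φ 0 = x ∧ φ α = z ∧ r = ‖α‖}.Nonempty := by
    refine ⟨‖(1 / 2 : ℂ)‖, fun ζ => pt m (rd k * (2 * t) * ζ) (((1 - δ : ℝ) : ℂ) +
      δ * (2 * t) * ζ), 1 / 2, ?_, ?_, ?_, ?_, ?_, rfl⟩
    · exact (pt_differentiable (by fun_prop) (by fun_prop)).differentiableOn
    · intro ζ hζ
      rw [mem_ball_zero_iff] at hζ
      apply c.mem_scale m k (s := 2 * t) _ (by linarith) (by nlinarith)
      · refine (norm_add_le _ _).trans ?_
        rw [norm_mul, norm_mul, norm_mul, Complex.norm_real, Complex.norm_real, htn,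
          Real.norm_eq_abs, Real.norm_eq_abs,
          abs_of_pos (by linarith), abs_of_pos hdl, Complex.norm_ofNat]
        have : δ * (2 * t) * ‖ζ‖ ≤ δ * (2 * t) * 1 := by gcongr
        linarith
      · rw [norm_mul, norm_mul, norm_mul, Complex.norm_real, htn, Real.norm_eq_abs, abs_of_pos hr,
          Complex.norm_ofNat]
        have h2t : 2 * t ≤ 1 := by nlinarith
        have : rd k * (2 * t) * ‖ζ‖ ≤ rd k * 1 * 1 := by gcongr
        linarith
    · rw [mem_ball_zero_iff]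
      norm_num
    · rw [hx]
      simp
    · have e1 : (rd k * (2 * t) * (1 / 2) : ℂ) = ((rd k * t : ℝ) : ℂ) := by
        push_cast
        ring
      have e2 : (((1 - δ : ℝ) : ℂ) + δ * (2 * t) * (1 / 2)) = ((1 - δ * (1 - t) : ℝ) : ℂ) := by
        push_cast
        ring
      simp only [e1, e2, hz]
  obtain ⟨r, ⟨φ, α, hφd, hφm, hα, hφ0, hφα, rfl⟩, hαlt⟩ := exists_lt_of_csInf_lt hne hlt
  -- the two coordinates
  set f : ℂ → ℂ := fun ζ => φ ζ 0 with hf
  set g : ℂ → ℂ := fun ζ => φ ζ 1 with hg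
  have hfd : DifferentiableOn ℂ f (ball 0 1) := (differentiableOn_pi.1 hφd) 0
  have hgd : DifferentiableOn ℂ g (ball 0 1) := (differentiableOn_pi.1 hφd) 1
  have hf1 : ∀ ζ ∈ ball (0 : ℂ) 1, ‖f ζ‖ ≤ 1 := fun ζ hζ => (c.norm_lt m (hφm hζ) 0).le
  have hg1 : ∀ ζ ∈ ball (0 : ℂ) 1, ‖g ζ‖ ≤ 1 := fun ζ hζ => (c.norm_lt m (hφm hζ) 1).le
  have hf0 : f 0 = 0 := by simp only [hf, hφ0, hx, pt_zero]
  have hg0 : g 0 = ((1 - δ : ℝ) : ℂ) := by simp only [hg, hφ0, hx, pt_one]
  have hfα : f α = ((rd k * t : ℝ) : ℂ) := by simp only [hf, hφα, hz, pt_zero]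
  have hgα : g α = ((1 - δ * (1 - t) : ℝ) : ℂ) := by simp only [hg, hφα, hz, pt_one]
  have hR : ∀ ζ ∈ ball (0 : ℂ) 1, c.a (k + 1) / 2 * U (eps (k + 1)) (f ζ) ≤ 1 - (g ζ).re := by
    intro ζ hζ
    have h1 := (hφm hζ).2
    unfold R at h1
    have h2 : ‖g ζ‖ ^ 2 ≤ ∑ j : Fin (m + 1), ‖φ ζ j.succ‖ ^ 2 :=
      Finset.single_le_sum (f := fun j : Fin (m + 1) => ‖φ ζ j.succ‖ ^ 2)
        (fun _ _ => by positivity) (Finset.mem_univ 0)
    have h3 := c.le_Psi (k + 1) (hf1 ζ hζ)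
    have h4 : (g ζ).re ≤ ‖g ζ‖ := Complex.re_le_norm _
    have h5 : ‖g ζ‖ ≤ (1 + ‖g ζ‖ ^ 2) / 2 := by nlinarith [sq_nonneg (1 - ‖g ζ‖)]
    have h6 : c.Psi (φ ζ 0) = c.Psi (f ζ) := rfl
    rw [h6] at h1
    linarith
  have hαA : ‖α‖ ≤ A * t := hαlt.le
  have hbound : ∀ d : ℝ, 0 ≤ d → (d + 4 * ‖α‖) * ‖α‖ ≤ (A * d + 4 * A ^ 2 * t) * t := by
    intro d hd
    have h1 := norm_nonneg α
    calc (d + 4 * ‖α‖) * ‖α‖ ≤ (d + 4 * (A * t)) * (A * t) := by gcongr
      _ = _ := by ring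
  have hf' : rd k / (2 * A) ≤ ‖deriv f 0‖ := by
    have h1 := dslope_bound hfd hf1 hα
    rw [hfα, hf0, sub_zero, Complex.norm_real, Real.norm_eq_abs, abs_of_pos (by positivity)] at h1
    have h2 := h1.trans (hbound _ (norm_nonneg _))
    have h3 := le_of_mul_le_mul_right h2 ht0
    rw [div_le_iff₀ (by positivity)]
    linarith
  have hg' : δ / (2 * A) ≤ ‖deriv g 0‖ := by
    have h1 := dslope_bound hgd hg1 hα
    have h0 : g α - g 0 = ((δ * t : ℝ) : ℂ) := by
      rw [hgα, hg0]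
      push_cast
      ring
    rw [h0, Complex.norm_real, Real.norm_eq_abs, abs_of_pos (by positivity)] at h1
    have h2 := h1.trans (hbound _ (norm_nonneg _))
    have h3 := le_of_mul_le_mul_right h2 ht0
    rw [div_le_iff₀ (by positivity)]
    linarith
  have hf'pos : 0 < ‖deriv f 0‖ := lt_of_lt_of_le (by positivity) hf'
  have hkey := key_estimate hfd hgd hf1 hf0 (eps_pos (k + 1)) (eps_le_one (k + 1)) ha hR
    (norm_pos_iff.1 hf'pos)
  rw [hg0, Complex.ofReal_re] at hkey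
  have hlog1 : log (1 / eps (k + 1)) = Q (k + 1) := by
    unfold eps
    rw [one_div, Real.log_inv, Real.log_exp]
    ring
  have hlog2 : K k - 1 - log (4 * A) ≤ log (‖deriv f 0‖ / (2 * eps (k + 1))) := by
    have h1 : K k - 1 - log (4 * A) = log (rd k / (2 * A) / (2 * eps (k + 1))) := by
      unfold rd eps K
      have e1 : exp (-1) * exp (-Q k) / (2 * A) / (2 * exp (-Q (k + 1))) =
          exp (-1) * exp (-Q k) / ((4 * A) * exp (-Q (k + 1))) := by
        rw [div_div]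
        congr 1
        ring
      rw [e1, Real.log_div (by positivity) (by positivity),
        Real.log_mul (exp_pos _).ne' (exp_pos _).ne',
        Real.log_mul (by positivity) (exp_pos _).ne', Real.log_exp, Real.log_exp, Real.log_exp]
      ring
    rw [h1]
    have h2 := eps_pos (k + 1)
    apply Real.log_le_log (by positivity)
    gcongr
  rw [hlog1] at hkey
  have hQK : Q (k + 1) = K k + Q k := by unfold K; ring
  have hfin : δ / (2 * A) ≤ 4 * (c.a (k + 1) * (Q k + 3 + 2 * log (4 * A))) := by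
    refine hg'.trans (hkey.trans ?_)
    have h1 : δ = c.a (k + 1) * K k := rfl
    have h2 := mul_le_mul_of_nonneg_left hlog2 ha.le
    rw [hQK, h1]
    linarith
  have hlogA : 0 ≤ log (4 * A) := Real.log_nonneg (by linarith)
  rw [div_le_iff₀ (by positivity)] at hfin
  have h1 : δ = c.a (k + 1) * K k := rfl
  rw [h1] at hfin
  have h2 : K k ≤ 8 * A * (Q k + 3 + 2 * log (4 * A)) := by
    have h3 : c.a (k + 1) * K k ≤ c.a (k + 1) * (8 * A * (Q k + 3 + 2 * log (4 * A))) := by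
      linarith
    exact le_of_mul_le_mul_left h3 ha
  have h3 : Q k + 3 + 2 * log (4 * A) ≤ Q k * (4 + 2 * log (4 * A)) := by nlinarith
  have h4 : K k ≤ (8 * A * (4 + 2 * log (4 * A))) * Q k := by
    calc K k ≤ 8 * A * (Q k + 3 + 2 * log (4 * A)) := h2
      _ ≤ 8 * A * (Q k * (4 + 2 * log (4 * A))) := by gcongr
      _ = _ := by ring
  rw [K_eq] at h4
  have h5 := le_of_mul_le_mul_right h4 (by linarith : 0 < Q k)
  linarith

end Coef

/-- In every dimension `n ≥ 2` there is a bounded pseudoconvex domain with a `C^∞` boundary whose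
Lempert function satisfies no quasi triangle inequality. -/
theorem main (n : ℕ) (hn : 2 ≤ n) : ∃ D : Set (Fin n → ℂ), IsOpen D ∧ IsConnected D ∧
    Bornology.IsBounded D ∧ IsPseudoconvex D ∧ HasBoundaryOfClass ∞ D ∧ ¬ SatisfiesQTI D := by
  obtain ⟨m, rfl⟩ : ∃ m, n = m + 2 := ⟨n - 2, by omega⟩
  obtain ⟨c⟩ := exists_coef
  exact ⟨c.Dom m, c.isOpen_Dom m, c.isConnected_Dom m, c.isBounded_Dom m, c.isPseudoconvex_Dom m,
    c.hasBoundary m, c.not_QTI m⟩

end Pool.Agent.Work.MP_68919f_an
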